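import Pool.Agent.R385.FG.Dec

/-!
# The criteria in the variable `s`
-/

set_option autoImplicit false

namespace Pool.Agent.R385.FG

open Complex Filter Topology MeasureTheory
open Pool.Agent.R385.MC

/-- the point `m + 1 + iτ` -/
noncomputable def ept (m : ℕ) (τ : ℝ) : ℂ := (m : ℂ) + 1 + τ * I

/-- the open set `U` is symmetric with respect to the line `Re s = m + 1` -/
def Symm (m : ℕ) (U : Set ℂ) : Prop :=
  IsOpen U ∧ ∀ s ∈ U, 2 * ((m : ℂ) + 1) - (starRingEnd ℂ) s ∈ U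

lemma ept_eg (m : ℕ) (τ : ℝ) : ept m τ = eg (2 * m : ℤ) τ := by
  unfold ept eg
  push_cast
  ring

lemma ge_ept (m : ℕ) (τ : ℝ) : ge (2 * m : ℤ) (ept m τ) = τ := by rw [ept_eg, ge_eg]

lemma ge_im' (m : ℕ) (s : ℂ) : (ge (2 * m : ℤ) s).im < 0 ↔ (m : ℝ) + 1 < s.re := by
  rw [ge_im]
  have : (((2 * m : ℤ) : ℤ) : ℝ) / 2 + 1 = m + 1 := by push_cast; ring
  rw [this]

lemma symm_pre {m : ℕ} {U : Set ℂ} (hU : Symm m U) :
    IsOpen (eg (2 * m : ℤ) ⁻¹' U) ∧ ∀ ζ ∈ eg (2 * m : ℤ) ⁻¹' U,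
      (starRingEnd ℂ) ζ ∈ eg (2 * m : ℤ) ⁻¹' U := by
  refine ⟨hU.1.preimage (eg_diff _).continuous, fun ζ hζ => ?_⟩
  show eg _ ((starRingEnd ℂ) ζ) ∈ U
  rw [eg_conj]
  have h1 := hU.2 _ hζ
  have h2 : ((2 * m : ℤ) : ℂ) + 2 = 2 * ((m : ℂ) + 1) := by push_cast; ring
  rwa [h2]

variable {m : ℕ} {Φ : ℂ → ℂ} {lm : ℝ → ℝ} {a : ℕ → ℂ} {D : ℝ} {A : ℂ → ℂ}

theorem crit_mer (hd : Dec (fun ζ => Φ (eg (2 * m : ℤ) ζ)) lm a D A) {U : Set ℂ} (hU : Symm m U) :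
    (∃ F : ℂ → ℂ, MeromorphicOn F U ∧ ∀ s ∈ U, (m : ℝ) + 1 < s.re → F s = Φ s) ↔
    (∃ H : ℂ → ℂ, MeromorphicOn H U ∧
      ∀ᵐ τ : ℝ, ept m τ ∈ U → H (ept m τ) = (lm τ : ℂ) ^ 2) := by
  have hg := hd.global_iff zeta_piece (symm_pre hU).1 (symm_pre hU).2
  constructor
  · rintro ⟨F, hF, hFL⟩
    obtain ⟨K, hK, hKl⟩ := hg.1 ⟨F ∘ eg (2 * m : ℤ), fun ζ hζ =>
      (hF _ hζ).comp_analyticAt (eg_analytic _ ζ), fun ζ hζ him => hFL _ hζ (by
        rw [eg_re']; linarith)⟩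
    refine ⟨K ∘ ge (2 * m : ℤ), fun s hs => ?_, ?_⟩
    · refine MeromorphicAt.comp_analyticAt (hK (ge _ s) ?_) (ge_analytic _ s)
      show eg _ (ge _ s) ∈ U
      rwa [eg_ge]
    · filter_upwards [hKl] with τ h1 h2
      rw [Function.comp_apply, ge_ept, h1 (by rw [ept_eg] at h2; exact h2)]
      push_cast
      rfl
  · rintro ⟨K, hK, hKl⟩
    obtain ⟨F, hF, hFL⟩ := hg.2 ⟨K ∘ eg (2 * m : ℤ), fun ζ hζ =>
      (hK _ hζ).comp_analyticAt (eg_analytic _ ζ), by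
        filter_upwards [hKl] with τ h1 h2
        have h3 : ept m τ ∈ U := by rw [ept_eg]; exact h2
        have h4 := h1 h3
        rw [ept_eg] at h4
        rw [Function.comp_apply, h4]
        push_cast
        rfl⟩
    refine ⟨F ∘ ge (2 * m : ℤ), fun s hs => ?_, fun s hs hre => ?_⟩
    · refine MeromorphicAt.comp_analyticAt (hF (ge _ s) ?_) (ge_analytic _ s)
      show eg _ (ge _ s) ∈ U
      rwa [eg_ge]
    · have h1 := hFL (ge _ s) (by show eg _ (ge _ s) ∈ U; rwa [eg_ge]) ((ge_im' m s).2 hre)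
      rw [Function.comp_apply, h1, eg_ge]

theorem crit_hol (hd : Dec (fun ζ => Φ (eg (2 * m : ℤ) ζ)) lm a D A)
    (hA : ∀ ζ : ℂ, ζ.im < 0 → AnalyticAt ℂ A ζ ∧ A ζ ≠ 0) {U : Set ℂ} (hU : Symm m U) :
    (∃ F : ℂ → ℂ, DifferentiableOn ℂ F U ∧ ∀ s ∈ U, (m : ℝ) + 1 < s.re → F s = Φ s) ↔
    (∃ H : ℂ → ℂ, DifferentiableOn ℂ H U ∧
      ∀ᵐ τ : ℝ, ept m τ ∈ U → H (ept m τ) = (lm τ : ℂ) ^ 2) := by
  have hg := hd.global_diff zeta_piece (symm_pre hU).1 (symm_pre hU).2 hA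
  constructor
  · rintro ⟨F, hF, hFL⟩
    obtain ⟨K, hK, hKl⟩ := hg.1 ⟨F ∘ eg (2 * m : ℤ),
      hF.comp (eg_diff _).differentiableOn (fun ζ hζ => hζ), fun ζ hζ him => hFL _ hζ (by
        rw [eg_re']; linarith)⟩
    refine ⟨K ∘ ge (2 * m : ℤ), hK.comp (fun s _ => (ge_analytic _ s).differentiableAt
      |>.differentiableWithinAt) (fun s hs => ?_), ?_⟩
    · show eg _ (ge _ s) ∈ U
      rwa [eg_ge]
    · filter_upwards [hKl] with τ h1 h2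
      rw [Function.comp_apply, ge_ept, h1 (by rw [ept_eg] at h2; exact h2)]
      push_cast
      rfl
  · rintro ⟨K, hK, hKl⟩
    obtain ⟨F, hF, hFL⟩ := hg.2 ⟨K ∘ eg (2 * m : ℤ),
      hK.comp (eg_diff _).differentiableOn (fun ζ hζ => hζ), by
        filter_upwards [hKl] with τ h1 h2
        have h3 : ept m τ ∈ U := by rw [ept_eg]; exact h2
        have h4 := h1 h3
        rw [ept_eg] at h4
        rw [Function.comp_apply, h4]
        push_cast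
        rfl⟩
    refine ⟨F ∘ ge (2 * m : ℤ), hF.comp (fun s _ => (ge_analytic _ s).differentiableAt
      |>.differentiableWithinAt) (fun s hs => ?_), fun s hs hre => ?_⟩
    · show eg _ (ge _ s) ∈ U
      rwa [eg_ge]
    · have h1 := hFL (ge _ s) (by show eg _ (ge _ s) ∈ U; rwa [eg_ge]) ((ge_im' m s).2 hre)
      rw [Function.comp_apply, h1, eg_ge]

theorem crit_loc (hd : Dec (fun ζ => Φ (eg (2 * m : ℤ) ζ)) lm a D A) (τ₀ : ℝ) (r : ℤ) :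
    (∃ F : ℂ → ℂ, MeromorphicAt F (ept m τ₀) ∧ meromorphicOrderAt F (ept m τ₀) = r ∧
      ∀ᶠ s in 𝓝 (ept m τ₀), (m : ℝ) + 1 < s.re → F s = Φ s) ↔
    (∃ H : ℂ → ℂ, MeromorphicAt H (ept m τ₀) ∧
      meromorphicOrderAt H (ept m τ₀) = (2 * r : ℤ) ∧
      ∃ δ : ℝ, 0 < δ ∧ ∀ᵐ τ : ℝ, |τ - τ₀| < δ → H (ept m τ) = (lm τ : ℂ) ^ 2) := by
  obtain ⟨b, Y, hbY⟩ := zeta_piece τ₀
  have hg := hd.local_iff hbY r
  have hge : ge (2 * m : ℤ) (ept m τ₀) = τ₀ := ge_ept m τ₀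
  constructor
  · rintro ⟨F, hF, hFm, hFL⟩
    rw [ept_eg] at hF hFm hFL
    obtain ⟨K, hK, hKm, δ, hδ, hKl⟩ := hg.1 ⟨F ∘ eg (2 * m : ℤ), hF.comp_analyticAt (eg_analytic _ τ₀), by
      rw [meromorphicOrderAt_comp_of_deriv_ne_zero (eg_analytic _ τ₀) (deriv_eg _ τ₀)]
      exact hFm, by
        filter_upwards [(eg_diff (2 * m : ℤ)).continuous.continuousAt.eventually hFL] with ζ h1 him
        exact h1 (by rw [eg_re']; linarith)⟩
    refine ⟨K ∘ ge (2 * m : ℤ), ?_, ?_, δ, hδ, ?_⟩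
    · refine MeromorphicAt.comp_analyticAt ?_ (ge_analytic _ _)
      rw [hge]
      exact hK
    · rw [meromorphicOrderAt_comp_of_deriv_ne_zero (ge_analytic _ _) (deriv_ge _ _), hge]
      exact hKm
    · filter_upwards [hKl] with τ h1 h2
      rw [Function.comp_apply, ge_ept, h1 h2]
      push_cast
      rfl
  · rintro ⟨K, hK, hKm, δ, hδ, hKl⟩
    rw [ept_eg] at hK hKm
    obtain ⟨F, hF, hFm, hFL⟩ := hg.2 ⟨K ∘ eg (2 * m : ℤ), hK.comp_analyticAt (eg_analytic _ τ₀), by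
      rw [meromorphicOrderAt_comp_of_deriv_ne_zero (eg_analytic _ τ₀) (deriv_eg _ τ₀)]
      exact hKm, δ, hδ, by
        filter_upwards [hKl] with τ h1 h2
        have h3 := h1 h2
        rw [ept_eg] at h3
        rw [Function.comp_apply, h3]
        push_cast
        rfl⟩
    refine ⟨F ∘ ge (2 * m : ℤ), ?_, ?_, ?_⟩
    · refine MeromorphicAt.comp_analyticAt ?_ (ge_analytic _ _)
      rw [hge]
      exact hF
    · rw [meromorphicOrderAt_comp_of_deriv_ne_zero (ge_analytic _ _) (deriv_ge _ _), hge]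
      exact hFm
    · have h1 : Tendsto (ge (2 * m : ℤ)) (𝓝 (ept m τ₀)) (𝓝 (τ₀ : ℂ)) := by
        have := (ge_analytic (2 * m : ℤ) (ept m τ₀)).continuousAt.tendsto
        rwa [hge] at this
      filter_upwards [h1.eventually hFL] with s h2 hre
      rw [Function.comp_apply, h2 ((ge_im' m s).2 hre), eg_ge]

end Pool.Agent.R385.FG
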