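import Pool.Agent.R385.MC.Main
import Pool.Agent.Y707.PH.Phi

/-!
# The boundary decomposition for exponentials of Dirichlet series over prime powers
-/

set_option autoImplicit false

namespace Pool.Agent.R385.FG

open Complex Filter Topology MeasureTheory
open Pool.Agent.R385.MC
open Pool.Agent.H126R3 (Qc Qc_pos summable_Q)

/-- the normalised coefficients at the primes -/
noncomputable def an (c : Nat.Primes × ℕ → ℂ) (m n : ℕ) : ℂ :=
  if h : n.Prime then c (⟨n, h⟩, 0) / (n : ℂ) ^ m else 0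

/-- the higher terms -/
noncomputable def ht (c : Nat.Primes × ℕ → ℂ) (m : ℕ) (x : Nat.Primes × ℕ) (ζ : ℂ) : ℂ :=
  if 1 ≤ x.2 then c x * ((Qc x : ℕ) : ℂ) ^ (-(eg (2 * m : ℤ) ζ)) else 0

/-- their sum -/
noncomputable def HT (c : Nat.Primes × ℕ → ℂ) (m : ℕ) (ζ : ℂ) : ℂ := ∑' x, ht c m x ζ

/-- the function -/
noncomputable def Lf (c : Nat.Primes × ℕ → ℂ) (s : ℂ) : ℂ :=
  Complex.exp (∑' x, c x * ((Qc x : ℕ) : ℂ) ^ (-s))

variable {c : Nat.Primes × ℕ → ℂ} {m : ℕ} {D : ℝ}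

lemma eg_re' (m : ℕ) (ζ : ℂ) : (eg (2 * m : ℤ) ζ).re = m + 1 - ζ.im := by
  rw [eg_re]
  push_cast
  ring

lemma norm_term (hc : ∀ x, ‖c x‖ ≤ D * (Qc x : ℝ) ^ m) (x : Nat.Primes × ℕ) (s : ℂ) :
    ‖c x * ((Qc x : ℕ) : ℂ) ^ (-s)‖ ≤ D * (Qc x : ℝ) ^ (-(s.re - m)) := by
  have hQ : 0 < Qc x := Qc_pos x
  have hQ' : (0 : ℝ) < Qc x := by exact_mod_cast hQ
  rw [norm_mul, Complex.norm_natCast_cpow_of_pos hQ, Complex.neg_re]
  calc ‖c x‖ * (Qc x : ℝ) ^ (-s.re) ≤ D * (Qc x : ℝ) ^ m * (Qc x : ℝ) ^ (-s.re) :=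
        mul_le_mul_of_nonneg_right (hc x) (by positivity)
    _ = D * (Qc x : ℝ) ^ (-(s.re - m)) := by
        rw [mul_assoc, ← Real.rpow_natCast, ← Real.rpow_add hQ']
        congr 2
        ring

lemma summable_terms (hc : ∀ x, ‖c x‖ ≤ D * (Qc x : ℝ) ^ m) {s : ℂ} (hs : (m : ℝ) + 1 < s.re) :
    Summable fun x => c x * ((Qc x : ℕ) : ℂ) ^ (-s) := by
  have h1 := (summable_Q (s.re - m) (by linarith) 0 (by push_cast; linarith)).mul_left D
  refine Summable.of_norm_bounded h1 fun x => ?_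
  rw [if_pos (Nat.zero_le _)]
  exact norm_term hc x s

lemma one_le_Qc (x : Nat.Primes × ℕ) : (1 : ℝ) ≤ (Qc x : ℝ) := by
  exact_mod_cast Qc_pos x

lemma norm_ht (hD : 0 ≤ D) (hc : ∀ x, ‖c x‖ ≤ D * (Qc x : ℝ) ^ m) (x : Nat.Primes × ℕ) {ζ : ℂ}
    (hζ : ζ.im ≤ 1 / 4) :
    ‖ht c m x ζ‖ ≤ D * (if 1 ≤ x.2 then (Qc x : ℝ) ^ (-(3 / 4) : ℝ) else 0) := by
  unfold ht
  split_ifs with h
  · refine (norm_term hc x _).trans ?_
    refine mul_le_mul_of_nonneg_left ?_ hD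
    refine Real.rpow_le_rpow_of_exponent_le (one_le_Qc x) ?_
    rw [eg_re']
    linarith
  · simp

lemma summable_dom1 (D : ℝ) : Summable fun x : Nat.Primes × ℕ =>
    D * (if 1 ≤ x.2 then (Qc x : ℝ) ^ (-(3 / 4) : ℝ) else 0) :=
  (summable_Q (3 / 4) (by norm_num) 1 (by norm_num)).mul_left D

lemma HT_diff (hD : 0 ≤ D) (hc : ∀ x, ‖c x‖ ≤ D * (Qc x : ℝ) ^ m) :
    DifferentiableOn ℂ (HT c m) {ζ : ℂ | ζ.im < 1 / 4} := by
  refine differentiableOn_tsum_of_summable_norm (summable_dom1 D) (fun x => ?_)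
    (isOpen_lt Complex.continuous_im continuous_const) fun x ζ hζ => norm_ht hD hc x (le_of_lt hζ)
  unfold ht
  split_ifs with h
  · have hQ : ((Qc x : ℕ) : ℂ) ≠ 0 := by
      exact_mod_cast (Qc_pos x).ne'
    refine DifferentiableOn.const_mul ?_ _
    intro ζ _
    refine DifferentiableAt.differentiableWithinAt ?_
    refine DifferentiableAt.const_cpow ?_ (Or.inl hQ)
    exact ((eg_diff _).differentiableAt).neg
  · exact differentiableOn_const _

lemma HT_analytic (hD : 0 ≤ D) (hc : ∀ x, ‖c x‖ ≤ D * (Qc x : ℝ) ^ m) {ζ : ℂ} (hζ : ζ.im ≤ 0) :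
    AnalyticAt ℂ (HT c m) ζ := by
  refine (HT_diff hD hc).analyticAt ((isOpen_lt Complex.continuous_im continuous_const).mem_nhds ?_)
  show ζ.im < 1 / 4
  linarith

lemma first_eq (hp : Nat.Primes) (ζ : ℂ) :
    c (hp, 0) * ((Qc (hp, 0) : ℕ) : ℂ) ^ (-(eg (2 * m : ℤ) ζ)) =
      cf (an c m) (hp : ℕ) * Complex.exp (-(I * ζ) * Real.log (hp : ℕ)) := by
  obtain ⟨p, hp⟩ := hp
  have hp0 : (p : ℂ) ≠ 0 := by exact_mod_cast hp.ne_zero
  have hQ : Qc (((⟨p, hp⟩ : Nat.Primes), 0) : Nat.Primes × ℕ) = p := by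
    unfold Qc
    simp
  rw [hQ]
  unfold cf an
  simp only [if_pos hp, dif_pos hp]
  have h1 : -(eg (2 * m : ℤ) ζ) = -((m + 1 : ℕ) : ℂ) + -(I * ζ) := by
    unfold eg
    push_cast
    ring
  rw [h1, Complex.cpow_add _ _ hp0, Complex.cpow_neg, Complex.cpow_natCast]
  have h2 : (p : ℂ) ^ (-(I * ζ)) = Complex.exp (-(I * ζ) * Real.log p) := by
    rw [Complex.cpow_def_of_ne_zero hp0, Complex.natCast_log, mul_comm]
  rw [h2, pow_succ]
  field_simp

lemma sum_first (ζ : ℂ) :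
    (∑' x : Nat.Primes × ℕ, if x.2 = 0 then c x * ((Qc x : ℕ) : ℂ) ^ (-(eg (2 * m : ℤ) ζ)) else 0) =
      gg (an c m) ζ := by
  have hinj : Function.Injective fun p : Nat.Primes => ((p, 0) : Nat.Primes × ℕ) := by
    intro p q h
    exact (Prod.mk.inj h).1
  have h1 := hinj.tsum_eq (f := fun x : Nat.Primes × ℕ =>
    if x.2 = 0 then c x * ((Qc x : ℕ) : ℂ) ^ (-(eg (2 * m : ℤ) ζ)) else 0) (by
      intro x hx
      by_contra hcon
      apply hx
      have h2 : x.2 ≠ 0 := by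
        intro h3
        apply hcon
        exact ⟨x.1, Prod.ext rfl h3.symm⟩
      simp only [h2, if_false])
  rw [← h1]
  simp only [if_true]
  unfold gg
  have hinj2 : Function.Injective fun p : Nat.Primes => (p : ℕ) := fun p q h => Subtype.ext h
  have h3 := hinj2.tsum_eq (f := fun n : ℕ => cf (an c m) n * Complex.exp (-(I * ζ) * Real.log n)) (by
      intro n hn
      by_contra hcon
      apply hn
      have h2 : ¬ n.Prime := by
        intro h3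
        apply hcon
        exact ⟨⟨n, h3⟩, rfl⟩
      unfold cf
      simp only [h2, if_false, zero_mul])
  rw [← h3]
  exact tsum_congr fun p => first_eq p ζ

lemma sum_split (hD : 0 ≤ D) (hc : ∀ x, ‖c x‖ ≤ D * (Qc x : ℝ) ^ m) {ζ : ℂ} (hζ : ζ.im < 0) :
    ∑' x, c x * ((Qc x : ℕ) : ℂ) ^ (-(eg (2 * m : ℤ) ζ)) = HT c m ζ + gg (an c m) ζ := by
  have hs : (m : ℝ) + 1 < (eg (2 * m : ℤ) ζ).re := by
    rw [eg_re']
    linarith
  have h0 := summable_terms hc hs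
  have h1 : Summable fun x => ht c m x ζ :=
    Summable.of_norm_bounded (summable_dom1 D) fun x => norm_ht hD hc x (by linarith)
  have h2 : ∀ x : Nat.Primes × ℕ, c x * ((Qc x : ℕ) : ℂ) ^ (-(eg (2 * m : ℤ) ζ)) = ht c m x ζ +
      (if x.2 = 0 then c x * ((Qc x : ℕ) : ℂ) ^ (-(eg (2 * m : ℤ) ζ)) else 0) := by
    intro x
    unfold ht
    by_cases h : x.2 = 0
    · rw [if_pos h, if_neg (by omega), zero_add]
    · rw [if_neg h, if_pos (by omega), add_zero]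
  have h3 : Summable fun x : Nat.Primes × ℕ =>
      (if x.2 = 0 then c x * ((Qc x : ℕ) : ℂ) ^ (-(eg (2 * m : ℤ) ζ)) else 0) := by
    refine (h0.sub h1).congr fun x => ?_
    have h4 := h2 x
    rw [← sub_eq_iff_eq_add'] at h4
    exact h4
  rw [tsum_congr h2, h1.tsum_add h3, sum_first]
  rfl

lemma norm_an (hD : 0 ≤ D) (hc : ∀ x, ‖c x‖ ≤ D * (Qc x : ℝ) ^ m) (n : ℕ) : ‖an c m n‖ ≤ D := by
  unfold an
  split_ifs with h
  · have hp0 : (0 : ℝ) < n := by exact_mod_cast h.pos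
    rw [norm_div, norm_pow, Complex.norm_natCast, div_le_iff₀ (by positivity)]
    have h1 := hc (⟨n, h⟩, 0)
    have hQ : Qc (((⟨n, h⟩ : Nat.Primes), 0) : Nat.Primes × ℕ) = n := by
      unfold Qc
      simp
    rwa [hQ] at h1
  · rw [norm_zero]
    exact hD

/-- the modulus of the boundary function -/
noncomputable def lam (c : Nat.Primes × ℕ → ℂ) (m : ℕ) (τ : ℝ) : ℝ :=
  ‖Complex.exp (HT c m τ)‖ * Real.exp (bv (an c m) τ).re

/-- **The decomposition.** -/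
theorem dec (hD : 0 ≤ D) (hc : ∀ x, ‖c x‖ ≤ D * (Qc x : ℝ) ^ m) :
    Dec (fun ζ => Lf c (eg (2 * m : ℤ) ζ)) (lam c m) (an c m) D (fun ζ => Complex.exp (HT c m ζ)) where
  D0 := hD
  ha := norm_an hD hc
  mer ζ hζ := (HT_analytic hD hc hζ).cexp.meromorphicAt
  ord ζ hζ := by
    have h1 : AnalyticAt ℂ (fun ζ => Complex.exp (HT c m ζ)) ζ := (HT_analytic hD hc hζ).cexp
    rw [h1.meromorphicOrderAt_eq, h1.analyticOrderAt_eq_zero.2 (Complex.exp_ne_zero _)]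
    simp
  eqL ζ hζ := by
    show Lf c (eg (2 * m : ℤ) ζ) = _
    unfold Lf
    rw [sum_split hD hc hζ, Complex.exp_add]
  eqlam := Eventually.of_forall fun τ => rfl

lemma lam_pos (τ : ℝ) : 0 < lam c m τ := by
  unfold lam
  have := norm_pos_iff.2 (Complex.exp_ne_zero (HT c m τ))
  positivity

lemma lam_radial (hD : 0 ≤ D) (hc : ∀ x, ‖c x‖ ≤ D * (Qc x : ℝ) ^ m) :
    ∀ᵐ τ : ℝ, Tendsto (fun ε : ℝ => ‖Lf c ((m : ℂ) + 1 + τ * I + ε)‖) (𝓝[>] 0) (𝓝 (lam c m τ)) := by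
  filter_upwards [(dec hD hc).radial] with τ h1
  have h2 := h1 (HT_analytic hD hc (by simp)).cexp.continuousAt
  refine h2.congr fun ε => ?_
  have h3 : eg (2 * m : ℤ) ((τ : ℂ) - I * ε) = (m : ℂ) + 1 + τ * I + ε := by
    unfold eg
    push_cast
    linear_combination (-(ε : ℂ)) * Complex.I_mul_I
  simp only [h3]

end Pool.Agent.R385.FG
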