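import Pool.Agent.R385.FG.Crit

/-!
# The modulus of `Φ₁` on the line `Re s = dim 𝒴`
-/

set_option autoImplicit false

namespace Pool.Agent.R385.FG

open Complex Filter Topology MeasureTheory NumberField IsDedekindDomain
open Pool.Agent.R385.MC (Dec gg_diff)
open Pool.Agent.Y707.PH (IsLisse IsPhi HasOrder Ph isPhi isPhi_unique norm_cf bC bC_nonneg)
open Pool.Agent.W353.FB (Fibration)

/-- The limit of `|Φ(m + 1 + it + ε)|` for `ε → 0+`. -/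
noncomputable def radial (m : ℕ) (Φ : ℂ → ℂ) (t : ℝ) : ℝ :=
  limUnder (𝓝[>] (0 : ℝ)) fun ε : ℝ => ‖Φ (ept m t + ε)‖

/-- `Φ`, defined for `Re s > m + 1`, has a meromorphic continuation to the open set `U`. -/
def MerOn (m : ℕ) (Φ : ℂ → ℂ) (U : Set ℂ) : Prop :=
  ∃ G : ℂ → ℂ, MeromorphicOn G U ∧ ∀ s ∈ U, (m : ℝ) + 1 < s.re → G s = Φ s

/-- `Φ`, defined for `Re s > m + 1`, has a holomorphic continuation to the open set `U`. -/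
def HolOn (m : ℕ) (Φ : ℂ → ℂ) (U : Set ℂ) : Prop :=
  ∃ G : ℂ → ℂ, DifferentiableOn ℂ G U ∧ ∀ s ∈ U, (m : ℝ) + 1 < s.re → G s = Φ s

/-- The square of the real function `lm` on the line `Re s = m + 1` is almost everywhere the
restriction of a meromorphic function on `U`. -/
def SqMerOn (m : ℕ) (lm : ℝ → ℝ) (U : Set ℂ) : Prop :=
  ∃ H : ℂ → ℂ, MeromorphicOn H U ∧ ∀ᵐ t : ℝ, ept m t ∈ U → H (ept m t) = (lm t : ℂ) ^ 2

/-- The square of the real function `lm` on the line `Re s = m + 1` is almost everywhere the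
restriction of a holomorphic function on `U`. -/
def SqHolOn (m : ℕ) (lm : ℝ → ℝ) (U : Set ℂ) : Prop :=
  ∃ H : ℂ → ℂ, DifferentiableOn ℂ H U ∧ ∀ᵐ t : ℝ, ept m t ∈ U → H (ept m t) = (lm t : ℂ) ^ 2

/-- `Φ` has a meromorphic continuation to a neighbourhood of `m + 1 + it₀`, of order `r` there. -/
def OrdAt (m : ℕ) (Φ : ℂ → ℂ) (t₀ : ℝ) (r : ℤ) : Prop :=
  ∃ G : ℂ → ℂ, MeromorphicAt G (ept m t₀) ∧ meromorphicOrderAt G (ept m t₀) = r ∧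
    ∀ᶠ s in 𝓝 (ept m t₀), (m : ℝ) + 1 < s.re → G s = Φ s

/-- Almost everywhere near `t₀` the square of `lm` is the restriction to the line `Re s = m + 1` of a
function meromorphic at `m + 1 + it₀`, of order `r` there. -/
def SqOrdAt (m : ℕ) (lm : ℝ → ℝ) (t₀ : ℝ) (r : ℤ) : Prop :=
  ∃ H : ℂ → ℂ, MeromorphicAt H (ept m t₀) ∧ meromorphicOrderAt H (ept m t₀) = r ∧
    ∃ δ : ℝ, 0 < δ ∧ ∀ᵐ t : ℝ, |t - t₀| < δ → H (ept m t) = (lm t : ℂ) ^ 2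

section
variable {m : ℕ} {Φ : ℂ → ℂ} {c : Nat.Primes × ℕ → ℂ} {D : ℝ}

lemma dec_congr {L L' : ℂ → ℂ} {lm lm' : ℝ → ℝ} {a : ℕ → ℂ} {A : ℂ → ℂ} (h : Dec L lm a D A)
    (hL : ∀ ζ : ℂ, ζ.im < 0 → L' ζ = L ζ) (hl : ∀ᵐ τ : ℝ, lm' τ = lm τ) : Dec L' lm' a D A where
  D0 := h.D0
  ha := h.ha
  mer := h.mer
  ord := h.ord
  eqL ζ hζ := by rw [hL ζ hζ, h.eqL ζ hζ]
  eqlam := by
    filter_upwards [h.eqlam, hl] with τ h1 h2
    rw [h2, h1]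

lemma eq_on (hΦ : ∀ s : ℂ, (m : ℝ) + 1 < s.re → Φ s = Lf c s) (t ε : ℝ) (hε : 0 < ε) :
    Φ (ept m t + ε) = Lf c ((m : ℂ) + 1 + t * I + ε) := by
  refine hΦ _ ?_
  unfold ept
  simp [hε]

theorem radial_ae (hD : 0 ≤ D) (hc : ∀ x, ‖c x‖ ≤ D * (Pool.Agent.H126R3.Qc x : ℝ) ^ m)
    (hΦ : ∀ s : ℂ, (m : ℝ) + 1 < s.re → Φ s = Lf c s) :
    ∀ᵐ t : ℝ, radial m Φ t = lam c m t ∧
      Tendsto (fun ε : ℝ => ‖Φ (ept m t + ε)‖) (𝓝[>] 0) (𝓝 (radial m Φ t)) := by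
  filter_upwards [lam_radial hD hc] with t h1
  have h2 : Tendsto (fun ε : ℝ => ‖Φ (ept m t + ε)‖) (𝓝[>] 0) (𝓝 (lam c m t)) := by
    refine h1.congr' ?_
    filter_upwards [self_mem_nhdsWithin] with ε hε
    rw [eq_on hΦ t ε hε]
  have h3 : radial m Φ t = lam c m t := h2.limUnder_eq
  exact ⟨h3, by rw [h3]; exact h2⟩

theorem dec_radial (hD : 0 ≤ D) (hc : ∀ x, ‖c x‖ ≤ D * (Pool.Agent.H126R3.Qc x : ℝ) ^ m)
    (hΦ : ∀ s : ℂ, (m : ℝ) + 1 < s.re → Φ s = Lf c s) :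
    Dec (fun ζ => Φ (Pool.Agent.R385.MC.eg (2 * m : ℤ) ζ)) (radial m Φ) (an c m) D
      (fun ζ => Complex.exp (HT c m ζ)) := by
  refine dec_congr (dec hD hc) (fun ζ hζ => ?_) ?_
  · exact hΦ _ (by rw [eg_re']; linarith)
  · filter_upwards [radial_ae hD hc hΦ] with t h1 using h1.1

theorem general (hD : 0 ≤ D) (hc : ∀ x, ‖c x‖ ≤ D * (Pool.Agent.H126R3.Qc x : ℝ) ^ m)
    (hΦ : ∀ s : ℂ, (m : ℝ) + 1 < s.re → Φ s = Lf c s) :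
    (∀ᵐ t : ℝ, 0 < radial m Φ t ∧
      Tendsto (fun ε : ℝ => ‖Φ (ept m t + ε)‖) (𝓝[>] 0) (𝓝 (radial m Φ t))) ∧
    (∀ U : Set ℂ, Symm m U →
      (MerOn m Φ U ↔ SqMerOn m (radial m Φ) U) ∧ (HolOn m Φ U ↔ SqHolOn m (radial m Φ) U)) ∧
    ∀ (t₀ : ℝ) (r : ℤ), OrdAt m Φ t₀ r ↔ SqOrdAt m (radial m Φ) t₀ (2 * r) := by
  have hd := dec_radial hD hc hΦ
  refine ⟨?_, fun U hU => ⟨crit_mer hd hU, crit_hol hd (fun ζ hζ => ⟨?_, Complex.exp_ne_zero _⟩) hU⟩,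
    fun t₀ r => crit_loc hd t₀ r⟩
  · filter_upwards [radial_ae hD hc hΦ] with t h1
    refine ⟨?_, h1.2⟩
    rw [h1.1]
    exact lam_pos t
  · exact (HT_analytic hD hc hζ.le).cexp

end

section
variable {K : Type} [Field K] [NumberField K] {f : Fibration K}
  {R : Finset (HeightOneSpectrum (𝓞 K))} {C : ℝ} {F : Type} [Field F] [NumberField F] [Algebra K F]

theorem phi_eq (hf : IsLisse f R C) {Φ : ℂ → ℂ} (hΦ : IsPhi f R F Φ) (s : ℂ)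
    (hs : (f.m : ℝ) + 1 < s.re) : Φ s = Lf (Pool.Agent.Y707.PH.cf f R F) s :=
  isPhi_unique hΦ (isPhi hf) s hs

theorem hasOrder_iff (hf : IsLisse f R C) {Φ : ℂ → ℂ} (hΦ : IsPhi f R F Φ) (r : ℤ) :
    HasOrder f R F r ↔ OrdAt f.m Φ 0 r := by
  have h0 : ept f.m 0 = (f.m : ℂ) + 1 := by
    unfold ept
    simp
  unfold OrdAt
  rw [h0]
  constructor
  · rintro ⟨Ψ, G, hΨ, hG, hGe, hGr⟩
    refine ⟨G, hG, hGr, ?_⟩
    filter_upwards [hGe] with s hs hre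
    rw [hs hre]
    exact isPhi_unique hΨ hΦ s hre
  · rintro ⟨G, hG, hGr, hGe⟩
    exact ⟨Φ, G, hΦ, hG, hGe, hGr⟩

end

end Pool.Agent.R385.FG
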