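import Pool.Agent.R385.FG.Res2
import Pool.Agent.TH339.MP.P7
import Pool.Agent.W353.FB.Defs

/-!
# Bounded functions on the primes of a number field
-/

set_option autoImplicit false

namespace Pool.Agent.R385.FG

open Complex Filter Topology MeasureTheory NumberField IsDedekindDomain
open Pool.Agent.R385.MC
open Pool.Agent.H126R3 (Qc Qc_pos summable_Q)
open Pool.Agent.TH339.MP (nm pr dg dg_pos nm_eq Sp mem_Sp card_Sp)

variable {F : Type} [Field F] [NumberField F]

/-- the prime power `q_v` -/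
noncomputable def kv (v : HeightOneSpectrum (𝓞 F)) : Nat.Primes × ℕ := (pr v, dg v - 1)

lemma Qc_kv (v : HeightOneSpectrum (𝓞 F)) : Qc (kv v) = Ideal.absNorm v.asIdeal := by
  have h1 : Ideal.absNorm v.asIdeal = nm v := rfl
  rw [h1, nm_eq]
  unfold Qc kv
  have := dg_pos v
  simp only
  congr 1
  omega

open Classical in
/-- the coefficients -/
noncomputable def cR (R : Finset (HeightOneSpectrum (𝓞 F))) (b : HeightOneSpectrum (𝓞 F) → ℝ)
    (x : Nat.Primes × ℕ) : ℂ :=
  ∑ v ∈ Sp x.1, if kv v = x ∧ v ∉ R then ((b v : ℝ) : ℂ) else 0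

variable {R : Finset (HeightOneSpectrum (𝓞 F))} {b : HeightOneSpectrum (𝓞 F) → ℝ} {C : ℝ}

lemma norm_cR (hC : 0 ≤ C) (hb : ∀ v, v ∉ R → |b v| ≤ C) (x : Nat.Primes × ℕ) :
    ‖cR R b x‖ ≤ Module.finrank ℚ F * C := by
  classical
  unfold cR
  refine (norm_sum_le_of_le (f := fun v => if kv v = x ∧ v ∉ R then ((b v : ℝ) : ℂ) else 0)
    (n := fun _ => C) _ fun v _ => ?_).trans ?_
  · by_cases h : kv v = x ∧ v ∉ R
    · simp only [if_pos h, Complex.norm_real, Real.norm_eq_abs]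
      exact hb v h.2
    · simp only [if_neg h, norm_zero]
      exact hC
  · rw [Finset.sum_const, nsmul_eq_mul]
    exact mul_le_mul_of_nonneg_right (card_Sp x.1) hC

lemma fib_sub (x : Nat.Primes × ℕ) :
    {v : HeightOneSpectrum (𝓞 F) | kv v = x} ⊆ (Sp x.1 : Finset (HeightOneSpectrum (𝓞 F))) := by
  intro v hv
  have h1 : kv v = x := hv
  rw [Finset.mem_coe, mem_Sp, ← h1]
  rfl

instance fib_finite (x : Nat.Primes × ℕ) : Finite {v : HeightOneSpectrum (𝓞 F) // kv v = x} :=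
  ((Finset.finite_toSet _).subset (fib_sub x)).to_subtype

/-- sums over the primes of `F` -/
theorem summable_hasSum_v (hC : 0 ≤ C) (hb : ∀ v, v ∉ R → |b v| ≤ C) {g : ℕ → ℂ}
    (hg : Summable fun x : Nat.Primes × ℕ => ‖g (Qc x)‖) :
    (Summable fun v : HeightOneSpectrum (𝓞 F) => open Classical in
      if v ∈ R then 0 else ((b v : ℝ) : ℂ) * g (Ideal.absNorm v.asIdeal)) ∧
    HasSum (fun x => cR R b x * g (Qc x)) (∑' v : HeightOneSpectrum (𝓞 F), open Classical in
      if v ∈ R then 0 else ((b v : ℝ) : ℂ) * g (Ideal.absNorm v.asIdeal)) := by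
  classical
  set f : HeightOneSpectrum (𝓞 F) → ℂ := fun v =>
    if v ∈ R then 0 else ((b v : ℝ) : ℂ) * g (Ideal.absNorm v.asIdeal) with hf
  have hfn : ∀ v, ‖f v‖ ≤ C * ‖g (Qc (kv v))‖ := by
    intro v
    rw [hf, Qc_kv]
    by_cases h : v ∈ R
    · simp only [if_pos h, norm_zero]
      positivity
    · simp only [if_neg h, norm_mul, Complex.norm_real, Real.norm_eq_abs]
      exact mul_le_mul_of_nonneg_right (hb v h) (norm_nonneg _)
  have hs : Summable f := by
    refine Summable.of_norm ?_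
    rw [← (Equiv.sigmaFiberEquiv (kv (F := F))).summable_iff]
    refine (summable_sigma_of_nonneg (fun _ => norm_nonneg _)).2 ⟨fun x => ?_, ?_⟩
    · exact Summable.of_finite
    · have h1 := hg.mul_left (Module.finrank ℚ F * C)
      refine Summable.of_nonneg_of_le (fun x => tsum_nonneg fun _ => norm_nonneg _) (fun x => ?_) h1
      let _ := Fintype.ofFinite {v : HeightOneSpectrum (𝓞 F) // kv v = x}
      rw [tsum_fintype]
      have h2 : ∀ v : {v : HeightOneSpectrum (𝓞 F) // kv v = x},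
          ((fun v => ‖f v‖) ∘ (Equiv.sigmaFiberEquiv (kv (F := F)))) ⟨x, v⟩ ≤ C * ‖g (Qc x)‖ := by
        intro v
        have h3 := hfn v.1
        rw [v.2] at h3
        exact h3
      refine (Finset.sum_le_card_nsmul _ _ _ fun v _ => h2 v).trans ?_
      rw [nsmul_eq_mul, Finset.card_univ, ← Nat.card_eq_fintype_card]
      have h4 : (Nat.card {v : HeightOneSpectrum (𝓞 F) // kv v = x} : ℝ) ≤ Module.finrank ℚ F := by
        refine le_trans ?_ (card_Sp x.1)
        have h5 := Set.ncard_le_ncard (fib_sub (F := F) x) (Finset.finite_toSet _)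
        rw [Set.ncard_coe_finset] at h5
        exact_mod_cast h5
      rw [← mul_assoc]
      exact mul_le_mul_of_nonneg_right (mul_le_mul_of_nonneg_right h4 hC) (norm_nonneg _)
  refine ⟨hs, ?_⟩
  have h1 := hs.hasSum
  rw [← (Equiv.sigmaFiberEquiv (kv (F := F))).hasSum_iff] at h1
  refine h1.sigma fun x => ?_
  let _ := Fintype.ofFinite {v : HeightOneSpectrum (𝓞 F) // kv v = x}
  have h2 : cR R b x * g (Qc x) = ∑ v : {v : HeightOneSpectrum (𝓞 F) // kv v = x},
      (f ∘ (Equiv.sigmaFiberEquiv (kv (F := F)))) ⟨x, v⟩ := by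
    have h3 : ∑ v : {v : HeightOneSpectrum (𝓞 F) // kv v = x},
        (f ∘ (Equiv.sigmaFiberEquiv (kv (F := F)))) ⟨x, v⟩ =
        ∑ v ∈ (Sp x.1 : Finset (HeightOneSpectrum (𝓞 F))).filter (fun v => kv v = x), f v := by
      refine (Finset.sum_subtype _ (fun v => ?_) f).symm
      rw [Finset.mem_filter]
      exact ⟨fun h => h.2, fun h => ⟨fib_sub x h, h⟩⟩
    rw [h3, Finset.sum_filter]
    unfold cR
    rw [Finset.sum_mul]
    refine Finset.sum_congr rfl fun v _ => ?_
    rw [hf]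
    by_cases h4 : kv v = x
    · by_cases h5 : v ∈ R
      · simp [h4, h5]
      · have h6 : Ideal.absNorm v.asIdeal = Qc x := by rw [← h4, Qc_kv]
        simp [h4, h5, h6]
    · simp [h4]
  rw [h2]
  exact hasSum_fintype _

theorem hasSum_v (hC : 0 ≤ C) (hb : ∀ v, v ∉ R → |b v| ≤ C) {g : ℕ → ℂ}
    (hg : Summable fun x : Nat.Primes × ℕ => ‖g (Qc x)‖) :
    HasSum (fun x => cR R b x * g (Qc x)) (∑' v : HeightOneSpectrum (𝓞 F), open Classical in
      if v ∈ R then 0 else ((b v : ℝ) : ℂ) * g (Ideal.absNorm v.asIdeal)) :=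
  (summable_hasSum_v hC hb hg).2

/-- The finite sum `∑ b_v cos(t log q_v) / q_v` over the primes `v ∉ R` of `F` with `q_v < x`. -/
noncomputable def cosSum (R : Finset (HeightOneSpectrum (𝓞 F))) (b : HeightOneSpectrum (𝓞 F) → ℝ)
    (x : ℕ) (t : ℝ) : ℝ :=
  ∑ᶠ v ∈ {v : HeightOneSpectrum (𝓞 F) | v ∉ R ∧ Ideal.absNorm v.asIdeal < x},
    b v * Real.cos (t * Real.log (Ideal.absNorm v.asIdeal)) / Ideal.absNorm v.asIdeal

/-- The limit for `x → ∞`: the series `U(t) = ∑ b_v cos(t log q_v) / q_v`. -/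
noncomputable def cosSeries (R : Finset (HeightOneSpectrum (𝓞 F)))
    (b : HeightOneSpectrum (𝓞 F) → ℝ) (t : ℝ) : ℝ :=
  limUnder atTop fun x : ℕ => cosSum R b x t

open Classical in
/-- The terms `b_v (log q_v) q_v^{-s}`, and `0` for `v ∈ R`. -/
noncomputable def logTerm (R : Finset (HeightOneSpectrum (𝓞 F)))
    (b : HeightOneSpectrum (𝓞 F) → ℝ) (s : ℂ) (v : HeightOneSpectrum (𝓞 F)) : ℂ :=
  if v ∈ R then 0 else
    ((b v * Real.log (Ideal.absNorm v.asIdeal) : ℝ) : ℂ) *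
      ((Ideal.absNorm v.asIdeal : ℕ) : ℂ) ^ (-s)

/-- The Dirichlet series `∑ b_v (log q_v) q_v^{-s}` over the primes `v ∉ R` of `F`. -/
noncomputable def logSeries (R : Finset (HeightOneSpectrum (𝓞 F)))
    (b : HeightOneSpectrum (𝓞 F) → ℝ) (s : ℂ) : ℂ :=
  ∑' v : HeightOneSpectrum (𝓞 F), logTerm R b s v

lemma logSeries_both (hC : 0 ≤ C) (hb : ∀ v, v ∉ R → |b v| ≤ C) {s : ℂ} (hs : 1 < s.re) :
    Summable (logTerm R b s) ∧ logSeries R b s = Dc (cR R b) s := by
  classical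
  set g : ℕ → ℂ := fun n => ((Real.log n : ℝ) : ℂ) * (n : ℂ) ^ (-s) with hg
  have hsum : Summable fun x : Nat.Primes × ℕ => ‖g (Qc x)‖ := by
    set δ : ℝ := (s.re - 1) / 4 with hδ
    have hδ0 : 0 < δ := by rw [hδ]; linarith
    have h1 := (summable_Q (s.re - δ) (by rw [hδ]; linarith) 0
      (by push_cast; rw [hδ]; linarith)).mul_left (1 / δ)
    refine Summable.of_nonneg_of_le (fun x => norm_nonneg _) (fun x => ?_) h1
    rw [if_pos (Nat.zero_le _)]
    have h2 := norm_dterm (c := fun _ => (1 : ℂ)) (m := 0) (D := 1) (fun x => by simp) x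
      (σ := s.re) hδ0 le_rfl
    rw [norm_neg, one_mul] at h2
    refine h2.trans (le_of_eq ?_)
    push_cast
    ring_nf
  have h0 := summable_hasSum_v hC hb hsum
  have h1 := h0.2.tsum_eq
  have h3 : ∀ v : HeightOneSpectrum (𝓞 F),
      (if v ∈ R then (0 : ℂ) else ((b v : ℝ) : ℂ) * g (Ideal.absNorm v.asIdeal)) =
      logTerm R b s v := by
    intro v
    unfold logTerm
    split_ifs
    · rfl
    · rw [hg]
      push_cast
      ring
  refine ⟨h0.1.congr h3, ?_⟩
  unfold logSeries Dc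
  have h2 : ∀ x : Nat.Primes × ℕ, cR R b x * ((Real.log (Qc x) : ℝ) : ℂ) *
      ((Qc x : ℕ) : ℂ) ^ (-s) = cR R b x * g (Qc x) := fun x => by rw [hg]; ring
  rw [tsum_congr h2, h1]
  exact (tsum_congr h3).symm

lemma logSeries_eq (hC : 0 ≤ C) (hb : ∀ v, v ∉ R → |b v| ≤ C) {s : ℂ} (hs : 1 < s.re) :
    logSeries R b s = Dc (cR R b) s := (logSeries_both hC hb hs).2

lemma cosSum_eq (hC : 0 ≤ C) (hb : ∀ v, v ∉ R → |b v| ≤ C) (x : ℕ) (t : ℝ) :
    cosSum R b x t = (∑' y, if Qc y < x then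
      cR R b y * ((Qc y : ℕ) : ℂ) ^ (-(eg (2 * (0 : ℕ) : ℤ) t)) else 0).re := by
  classical
  set g : ℕ → ℂ := fun n => if n < x then (n : ℂ) ^ (-(eg (2 * (0 : ℕ) : ℤ) t)) else 0 with hg
  have hsum : Summable fun x : Nat.Primes × ℕ => ‖g (Qc x)‖ := by
    refine summable_of_hasFiniteSupport ((finite_Qc x).subset fun z hz => ?_)
    by_contra h
    apply hz
    have h' : ¬ Qc z < x := h
    simp only [hg, if_neg h', norm_zero]
  have h1 := (hasSum_v hC hb hsum).tsum_eq
  have h2 : ∀ y : Nat.Primes × ℕ, (if Qc y < x then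
      cR R b y * ((Qc y : ℕ) : ℂ) ^ (-(eg (2 * (0 : ℕ) : ℤ) t)) else 0) = cR R b y * g (Qc y) := by
    intro y
    rw [hg]
    simp only
    split_ifs
    · rfl
    · rw [mul_zero]
  rw [tsum_congr h2, h1]
  have hfs : (Function.support fun v : HeightOneSpectrum (𝓞 F) =>
      if v ∈ R then (0 : ℂ) else ((b v : ℝ) : ℂ) * g (Ideal.absNorm v.asIdeal)).Finite := by
    have h3 : {v : HeightOneSpectrum (𝓞 F) | Qc (kv v) < x}.Finite := by
      have h4 : {v : HeightOneSpectrum (𝓞 F) | Qc (kv v) < x} =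
          ⋃ c ∈ {c : Nat.Primes × ℕ | Qc c < x}, {v | kv v = c} := by
        ext z
        simp
      rw [h4]
      exact (finite_Qc x).biUnion fun c _ => (Finset.finite_toSet _).subset (fib_sub c)
    refine h3.subset fun v hv => ?_
    by_contra h
    apply hv
    have h' : ¬ Ideal.absNorm v.asIdeal < x := by
      rw [← Qc_kv]
      exact h
    simp only [hg, if_neg h', mul_zero, ite_self]
  rw [tsum_eq_finsum hfs]
  have h5 : ∀ f : HeightOneSpectrum (𝓞 F) → ℂ, (Function.support f).Finite →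
      (∑ᶠ v, f v).re = ∑ᶠ v, (f v).re := by
    intro f hf
    exact (Complex.reAddGroupHom : ℂ →+ ℝ).map_finsum hf
  rw [h5 _ hfs]
  unfold cosSum
  rw [finsum_mem_def]
  refine finsum_congr fun v => ?_
  by_cases h6 : v ∈ R
  · rw [Set.indicator_of_notMem (fun h => h.1 h6), if_pos h6, Complex.zero_re]
  · rw [if_neg h6]
    by_cases h7 : Ideal.absNorm v.asIdeal < x
    · have hmem : v ∈ {v : HeightOneSpectrum (𝓞 F) |
          v ∉ R ∧ Ideal.absNorm v.asIdeal < x} := ⟨h6, h7⟩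
      rw [Set.indicator_of_mem hmem]
      have hq : 0 < Ideal.absNorm v.asIdeal := by
        rw [← Qc_kv]
        exact Qc_pos _
      have hq0 : ((Ideal.absNorm v.asIdeal : ℕ) : ℂ) ≠ 0 := by exact_mod_cast hq.ne'
      have h8 : -(eg (2 * (0 : ℕ) : ℤ) t) = -1 + -(((t : ℝ) : ℂ) * I) := by
        unfold eg
        push_cast
        ring
      simp only [hg, if_pos h7]
      rw [Complex.re_ofReal_mul, h8, Complex.cpow_add _ _ hq0, Complex.cpow_neg_one,
        Complex.cpow_def_of_ne_zero hq0, ← Complex.natCast_log]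
      have h9 : ((Real.log (Ideal.absNorm v.asIdeal) : ℝ) : ℂ) * -(((t : ℝ) : ℂ) * I) =
          ((-(t * Real.log (Ideal.absNorm v.asIdeal)) : ℝ) : ℂ) * I := by
        push_cast
        ring
      have h10 : ((Ideal.absNorm v.asIdeal : ℕ) : ℂ)⁻¹ =
          ((((Ideal.absNorm v.asIdeal : ℕ) : ℝ)⁻¹ : ℝ) : ℂ) := by push_cast; rfl
      rw [h9, h10, Complex.re_ofReal_mul, Complex.exp_ofReal_mul_I_re, Real.cos_neg]
      ring
    · rw [Set.indicator_of_notMem (fun h => h7 h.2)]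
      simp only [hg, if_neg h7, mul_zero, Complex.zero_re]

theorem cosSeries_ae (hC : 0 ≤ C) (hb : ∀ v, v ∉ R → |b v| ≤ C) :
    ∀ᵐ t : ℝ, cosSeries R b t = Ub (cR R b) 0 t ∧
      Tendsto (fun x : ℕ => cosSum R b x t) atTop (𝓝 (cosSeries R b t)) := by
  have hD : 0 ≤ Module.finrank ℚ F * C := by positivity
  have hc : ∀ x, ‖cR R b x‖ ≤ Module.finrank ℚ F * C * (Qc x : ℝ) ^ 0 := fun x => by
    rw [pow_zero, mul_one]
    exact norm_cR hC hb x
  filter_upwards [tend_sum hD hc] with t h1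
  have h2 : Tendsto (fun x : ℕ => cosSum R b x t) atTop (𝓝 (Ub (cR R b) 0 t)) := by
    refine ((Complex.continuous_re.tendsto _).comp h1).congr fun x => ?_
    rw [cosSum_eq hC hb]
    rfl
  have h3 : cosSeries R b t = Ub (cR R b) 0 t := h2.limUnder_eq
  exact ⟨h3, by rw [h3]; exact h2⟩

/-- The function `Φ`, defined for `Re s > 1`, has a meromorphic continuation to a neighbourhood of `s₀`,
with at most a simple pole there, with the residue `r`. -/
def HasResidue (Φ : ℂ → ℂ) (s₀ : ℂ) (r : ℝ) : Prop :=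
  ∃ G : ℂ → ℂ, AnalyticAt ℂ G s₀ ∧ ∀ᶠ s in 𝓝 s₀, 1 < s.re → Φ s = r / (s - s₀) + G s

/-- The two statements together. -/
def Criterion (R : Finset (HeightOneSpectrum (𝓞 F))) (b : HeightOneSpectrum (𝓞 F) → ℝ) : Prop :=
  (∀ s : ℂ, 1 < s.re → Summable (logTerm R b s)) ∧
  (∀ᵐ t : ℝ, Tendsto (fun x : ℕ => cosSum R b x t) atTop (𝓝 (cosSeries R b t))) ∧
  ∀ t₀ r : ℝ, HasResidue (logSeries R b) (1 + t₀ * I) r ↔ LogSing (cosSeries R b) t₀ r

/-- **The criterion for a number field.** -/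
theorem number_field (hC : 0 ≤ C) (hb : ∀ v, v ∉ R → |b v| ≤ C) (t₀ r : ℝ) :
    HasResidue (logSeries R b) (1 + t₀ * I) r ↔ LogSing (cosSeries R b) t₀ r := by
  have hD : 0 ≤ Module.finrank ℚ F * C := by positivity
  have hc : ∀ x, ‖cR R b x‖ ≤ Module.finrank ℚ F * C * (Qc x : ℝ) ^ 0 := fun x => by
    rw [pow_zero, mul_one]
    exact norm_cR hC hb x
  have h0 : ept 0 t₀ = 1 + t₀ * I := by
    unfold ept
    push_cast
    ring
  have h1 := res_iff hD hc t₀ r
  rw [h0] at h1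
  have h2 : HasResidue (logSeries R b) (1 + t₀ * I) r ↔ HasRes 0 (Dc (cR R b)) (1 + t₀ * I) r := by
    unfold HasResidue HasRes
    refine exists_congr fun G => and_congr_right fun _ => ?_
    refine eventually_congr (Eventually.of_forall fun s => ?_)
    push_cast
    rw [zero_add]
    refine forall_congr' fun hs => ?_
    rw [logSeries_eq hC hb hs]
  rw [h2, h1]
  unfold LogSing
  refine exists_congr fun H => and_congr_right fun _ => exists_congr fun δ => and_congr_right fun _ => ?_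
  have h3 := cosSeries_ae hC hb
  constructor
  · intro h4
    filter_upwards [h3, h4] with t h5 h6
    rw [h5.1]
    exact h6
  · intro h4
    filter_upwards [h3, h4] with t h5 h6
    rw [← h5.1]
    exact h6

theorem criterion (hb : ∃ C : ℝ, ∀ v, v ∉ R → |b v| ≤ C) : Criterion R b := by
  obtain ⟨C, hC⟩ := hb
  have hC' : ∀ v, v ∉ R → |b v| ≤ |C| := fun v hv => (hC v hv).trans (le_abs_self C)
  refine ⟨fun s hs => (logSeries_both (abs_nonneg C) hC' hs).1, ?_,
    number_field (abs_nonneg C) hC'⟩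
  filter_upwards [cosSeries_ae (abs_nonneg C) hC'] with t h1 using h1.2

end Pool.Agent.R385.FG
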