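import Pool.Agent.R385.FG.Tr

/-!
# Simple poles of the logarithmic derivative and the boundary function
-/

set_option autoImplicit false

namespace Pool.Agent.R385.FG

open Complex Filter Topology MeasureTheory Metric
open Pool.Agent.R385.MC
open Pool.Agent.H126R3 (Qc Qc_pos summable_Q)

/-- the Dirichlet series over prime powers -/
noncomputable def lc (c : Nat.Primes × ℕ → ℂ) (s : ℂ) : ℂ := ∑' x, c x * ((Qc x : ℕ) : ℂ) ^ (-s)

/-- minus its derivative -/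
noncomputable def Dc (c : Nat.Primes × ℕ → ℂ) (s : ℂ) : ℂ :=
  ∑' x, c x * ((Real.log (Qc x) : ℝ) : ℂ) * ((Qc x : ℕ) : ℂ) ^ (-s)

variable {c : Nat.Primes × ℕ → ℂ} {m : ℕ} {D : ℝ}

lemma hasDeriv_term (x : Nat.Primes × ℕ) (y : ℂ) :
    HasDerivAt (fun s : ℂ => c x * ((Qc x : ℕ) : ℂ) ^ (-s))
      (-(c x * ((Real.log (Qc x) : ℝ) : ℂ) * ((Qc x : ℕ) : ℂ) ^ (-y))) y := by
  have hQ : ((Qc x : ℕ) : ℂ) ≠ 0 := by exact_mod_cast (Qc_pos x).ne'
  have h1 : HasDerivAt (fun s : ℂ => ((Qc x : ℕ) : ℂ) ^ (-s))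
      (((Qc x : ℕ) : ℂ) ^ (-y) * Complex.log ((Qc x : ℕ) : ℂ) * (-1)) y :=
    (hasDerivAt_neg y).const_cpow (Or.inl hQ)
  have h2 := h1.const_mul (c x)
  rw [← Complex.natCast_log] at h2
  have h3 : -(c x * ((Real.log (Qc x) : ℝ) : ℂ) * ((Qc x : ℕ) : ℂ) ^ (-y)) =
      c x * (((Qc x : ℕ) : ℂ) ^ (-y) * ((Real.log (Qc x) : ℝ) : ℂ) * (-1)) := by ring
  rw [h3]
  exact h2

lemma norm_dterm (hc : ∀ x, ‖c x‖ ≤ D * (Qc x : ℝ) ^ m) (x : Nat.Primes × ℕ) {σ δ : ℝ} (hδ : 0 < δ)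
    {y : ℂ} (hy : σ ≤ y.re) :
    ‖-(c x * ((Real.log (Qc x) : ℝ) : ℂ) * ((Qc x : ℕ) : ℂ) ^ (-y))‖ ≤
      D / δ * (Qc x : ℝ) ^ (-(σ - m - δ)) := by
  have hQ : (0 : ℝ) < Qc x := by exact_mod_cast Qc_pos x
  have h1 := norm_term hc x y
  have h2 : ((Real.log (Qc x) : ℝ)) ≤ (Qc x : ℝ) ^ δ / δ := Real.log_le_rpow_div hQ.le hδ
  have h3 : 0 ≤ Real.log (Qc x) := Real.log_nonneg (one_le_Qc x)
  have hD : 0 ≤ D * (Qc x : ℝ) ^ (-(y.re - m)) := (norm_nonneg _).trans h1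
  rw [norm_neg, norm_mul, norm_mul, Complex.norm_real, Real.norm_of_nonneg h3]
  calc ‖c x‖ * Real.log (Qc x) * ‖((Qc x : ℕ) : ℂ) ^ (-y)‖
      = ‖c x * ((Qc x : ℕ) : ℂ) ^ (-y)‖ * Real.log (Qc x) := by
        rw [norm_mul]
        ring
    _ ≤ D * (Qc x : ℝ) ^ (-(y.re - m)) * ((Qc x : ℝ) ^ δ / δ) :=
        mul_le_mul h1 h2 h3 hD
    _ = D / δ * ((Qc x : ℝ) ^ (-(y.re - m)) * (Qc x : ℝ) ^ δ) := by ring
    _ = D / δ * (Qc x : ℝ) ^ (-(y.re - m - δ)) := by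
        rw [← Real.rpow_add hQ]
        congr 2
        ring
    _ ≤ D / δ * (Qc x : ℝ) ^ (-(σ - m - δ)) := by
        have hD' : 0 ≤ D := by
          by_contra h
          push Not at h
          have h4 : 0 < (Qc x : ℝ) ^ (-(y.re - m)) := by positivity
          nlinarith
        refine mul_le_mul_of_nonneg_left ?_ (by positivity)
        exact Real.rpow_le_rpow_of_exponent_le (one_le_Qc x) (by linarith)

lemma hasDeriv_lc (hc : ∀ x, ‖c x‖ ≤ D * (Qc x : ℝ) ^ m) {s : ℂ} (hs : (m : ℝ) + 1 < s.re) :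
    HasDerivAt (lc c) (-(Dc c s)) s := by
  set δ : ℝ := (s.re - (m + 1)) / 4 with hδ
  have hδ0 : 0 < δ := by rw [hδ]; linarith
  set σ : ℝ := m + 1 + 2 * δ with hσ
  have hu : Summable fun x : Nat.Primes × ℕ => D / δ * (Qc x : ℝ) ^ (-(σ - m - δ)) := by
    have h1 := (summable_Q (σ - m - δ) (by rw [hσ]; linarith) 0
      (by push_cast; rw [hσ]; linarith)).mul_left (D / δ)
    refine h1.congr fun x => ?_
    rw [if_pos (Nat.zero_le _)]
  have hopen : IsOpen {z : ℂ | σ < z.re} := isOpen_lt continuous_const Complex.continuous_re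
  have hmem : s ∈ {z : ℂ | σ < z.re} := by
    show σ < s.re
    rw [hσ, hδ]
    linarith
  have h2 := hasDerivAt_tsum_of_isPreconnected hu hopen (convex_halfSpace_re_gt _).isPreconnected
    (fun x y _ => hasDeriv_term (c := c) x y) (fun x y hy => norm_dterm hc x hδ0 (le_of_lt hy))
    hmem (summable_terms hc hs) hmem
  rw [tsum_neg] at h2
  exact h2

lemma lc_split (hD : 0 ≤ D) (hc : ∀ x, ‖c x‖ ≤ D * (Qc x : ℝ) ^ m) {ζ : ℂ} (hζ : ζ.im < 0) :
    lc c (eg (2 * m : ℤ) ζ) = HT c m ζ + gg (an c m) ζ := sum_split hD hc hζ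

/-- the real part of the boundary function -/
noncomputable def Ub (c : Nat.Primes × ℕ → ℂ) (m : ℕ) (τ : ℝ) : ℝ :=
  (HT c m τ + bv (an c m) τ).re

/-- `Φ` has a meromorphic continuation to a neighbourhood of `s₀`, with at most a simple pole there,
with the residue `r`. -/
def HasRes (m : ℕ) (Φ : ℂ → ℂ) (s₀ : ℂ) (r : ℝ) : Prop :=
  ∃ G : ℂ → ℂ, AnalyticAt ℂ G s₀ ∧ ∀ᶠ s in 𝓝 s₀, (m : ℝ) + 1 < s.re → Φ s = r / (s - s₀) + G s

/-- Almost everywhere near `t₀`, the function `U(t) + r log |t - t₀|` is equal to a function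
holomorphic at `t₀`. -/
def LogSing (U : ℝ → ℝ) (t₀ r : ℝ) : Prop :=
  ∃ H : ℂ → ℂ, AnalyticAt ℂ H t₀ ∧ ∃ δ : ℝ, 0 < δ ∧ ∀ᵐ t : ℝ, |t - t₀| < δ →
    ((U t + r * Real.log |t - t₀| : ℝ) : ℂ) = H t

lemma ept_sub (m : ℕ) (t t₀ : ℝ) : ept m t - ept m t₀ = I * ((t - t₀ : ℝ) : ℂ) := by
  unfold ept
  push_cast
  ring

lemma eg_sub (m : ℕ) (ζ : ℂ) (t₀ : ℝ) : eg (2 * m : ℤ) ζ - ept m t₀ = I * (ζ - t₀) := by
  rw [ept_eg]
  unfold eg
  ring

theorem sing_of_res (hD : 0 ≤ D) (hc : ∀ x, ‖c x‖ ≤ D * (Qc x : ℝ) ^ m) {t₀ r : ℝ}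
    (h : HasRes m (Dc c) (ept m t₀) r) : LogSing (Ub c m) t₀ r := by
  obtain ⟨G, hG, hGe⟩ := h
  obtain ⟨ρ₁, hρ₁, h1⟩ := Metric.eventually_nhds_iff_ball.1 hG.eventually_analyticAt
  obtain ⟨ρ₂, hρ₂, h2⟩ := Metric.eventually_nhds_iff_ball.1 hGe
  set ρ := min ρ₁ ρ₂ with hρ
  have hρ0 : 0 < ρ := lt_min hρ₁ hρ₂
  have hGd : DifferentiableOn ℂ G (ball (ept m t₀) ρ) := fun z hz =>
    (h1 z (ball_subset_ball (min_le_left _ _) hz)).differentiableAt.differentiableWithinAt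
  obtain ⟨P, hP⟩ := hGd.isExactOn_ball
  set S : Set ℂ := ball (ept m t₀) ρ ∩ {z : ℂ | (m : ℝ) + 1 < z.re} with hS
  have hSo : IsOpen S := isOpen_ball.inter (isOpen_lt continuous_const Complex.continuous_re)
  have hSc : IsPreconnected S := ((convex_ball _ _).inter (convex_halfSpace_re_gt _)).isPreconnected
  have hre0 : (ept m t₀).re = m + 1 := by
    unfold ept
    simp
  have hsl : ∀ z ∈ S, z - ept m t₀ ∈ slitPlane := by
    intro z hz
    refine Or.inl ?_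
    have h3 : (m : ℝ) + 1 < z.re := hz.2
    rw [Complex.sub_re, hre0]
    linarith
  set f : ℂ → ℂ := fun z => lc c z + r * Complex.log (z - ept m t₀) + P z with hf
  have hfd : ∀ z ∈ S, HasDerivAt f 0 z := by
    intro z hz
    have h3 := hasDeriv_lc (c := c) hc hz.2
    have h4 : HasDerivAt (fun z : ℂ => Complex.log (z - ept m t₀)) (1 / (z - ept m t₀)) z :=
      ((hasDerivAt_id z).sub_const _).clog (hsl z hz)
    have h5 := (h3.add (h4.const_mul (r : ℂ))).add (hP z hz.1)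
    have h6 := h2 z (ball_subset_ball (min_le_right _ _) hz.1) hz.2
    have h7 : -(Dc c z) + r * (1 / (z - ept m t₀)) + G z = 0 := by
      rw [h6]
      ring
    rw [h7] at h5
    exact h5
  obtain ⟨k, hk⟩ := hSo.exists_is_const_of_deriv_eq_zero hSc
    (fun z hz => (hfd z hz).differentiableAt.differentiableWithinAt)
    (fun z hz => (hfd z hz).deriv)
  -- the analytic function
  set H₀ : ℂ → ℂ := fun ζ => k - P (eg (2 * m : ℤ) ζ) with hH₀
  have hPa : AnalyticAt ℂ P (ept m t₀) := by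
    have : DifferentiableOn ℂ P (ball (ept m t₀) ρ) := fun z hz =>
      (hP z hz).differentiableAt.differentiableWithinAt
    exact this.analyticAt (ball_mem_nhds _ hρ0)
  have hH₀a : AnalyticAt ℂ H₀ t₀ := by
    refine analyticAt_const.sub ?_
    have h3 : AnalyticAt ℂ P (eg (2 * m : ℤ) (t₀ : ℂ)) := by rwa [← ept_eg]
    exact h3.comp (eg_analytic _ _)
  have hrf : AnalyticAt ℂ (rf H₀) t₀ := rf_analyticAt (by rw [Complex.conj_ofReal]; exact hH₀a)
  refine ⟨fun ζ => (H₀ ζ + rf H₀ ζ) / 2, (hH₀a.add hrf).div_const, ρ, hρ0, ?_⟩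
  have hne : ∀ᵐ t : ℝ, t ≠ t₀ := by
    rw [ae_iff]
    simp
  filter_upwards [bv_ae (norm_an hD hc), hne] with t h3 h4 h5
  have hval : (H₀ t + rf H₀ t) / 2 = (((H₀ t).re : ℝ) : ℂ) := by
    unfold rf
    rw [Complex.conj_ofReal, Complex.add_conj]
    push_cast
    ring
  rw [hval]
  congr 1
  -- the radial limits
  have hpath : Tendsto (fun ε : ℝ => (t : ℂ) - I * ε) (𝓝[>] 0) (𝓝 (t : ℂ)) := tendsto_below t
  have h6 : Tendsto (fun ε : ℝ => lc c (eg (2 * m : ℤ) ((t : ℂ) - I * ε))) (𝓝[>] 0)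
      (𝓝 (HT c m t + bv (an c m) t)) := by
    have h7 := ((HT_analytic hD hc (ζ := (t : ℂ)) (by simp)).continuousAt.tendsto.comp hpath).add
      (bv_radial hD (norm_an hD hc) h3)
    refine h7.congr' ?_
    filter_upwards [self_mem_nhdsWithin] with ε hε
    rw [lc_split hD hc (by simpa using hε)]
    rfl
  have hmemb : ept m t ∈ ball (ept m t₀) ρ := by
    rw [mem_ball, dist_eq_norm, ept_sub, norm_mul, Complex.norm_I, one_mul, Complex.norm_real,
      Real.norm_eq_abs]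
    exact h5
  have h8 : Tendsto (fun ε : ℝ => eg (2 * m : ℤ) ((t : ℂ) - I * ε)) (𝓝[>] 0) (𝓝 (ept m t)) := by
    rw [ept_eg]
    exact (eg_diff _).continuous.continuousAt.tendsto.comp hpath
  have hlog0 : ept m t - ept m t₀ ∈ slitPlane := by
    rw [ept_sub]
    refine Or.inr ?_
    simp only [Complex.mul_im, Complex.I_re, Complex.I_im, Complex.ofReal_re, Complex.ofReal_im]
    have : t - t₀ ≠ 0 := sub_ne_zero.2 h4
    simpa using this
  have h9 : Tendsto (fun ε : ℝ => lc c (eg (2 * m : ℤ) ((t : ℂ) - I * ε))) (𝓝[>] 0)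
      (𝓝 (k - P (ept m t) - r * Complex.log (ept m t - ept m t₀))) := by
    have h10 : Tendsto (fun z : ℂ => k - P z - r * Complex.log (z - ept m t₀)) (𝓝 (ept m t))
        (𝓝 (k - P (ept m t) - r * Complex.log (ept m t - ept m t₀))) := by
      have h11 := (hP _ hmemb).continuousAt
      have h12 : ContinuousAt (fun z : ℂ => Complex.log (z - ept m t₀)) (ept m t) :=
        ContinuousAt.clog (continuousAt_id.sub continuousAt_const) hlog0
      exact ((continuousAt_const.sub h11).sub (continuousAt_const.mul h12)).tendsto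
    refine (h10.comp h8).congr' ?_
    have h13 : ∀ᶠ ε : ℝ in 𝓝[>] 0, eg (2 * m : ℤ) ((t : ℂ) - I * ε) ∈ ball (ept m t₀) ρ :=
      h8.eventually (isOpen_ball.mem_nhds hmemb)
    filter_upwards [h13, self_mem_nhdsWithin] with ε hε hε0
    have hε0' : (0 : ℝ) < ε := hε0
    have h14 : eg (2 * m : ℤ) ((t : ℂ) - I * ε) ∈ S := by
      refine ⟨hε, ?_⟩
      show (m : ℝ) + 1 < (eg (2 * m : ℤ) ((t : ℂ) - I * ε)).re
      rw [eg_re']
      simp only [Complex.sub_im, Complex.ofReal_im, Complex.mul_im, Complex.I_re, Complex.I_im,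
        Complex.ofReal_re]
      linarith
    have h15 := hk _ h14
    rw [Function.comp_apply, ← h15, hf]
    ring
  have h16 := tendsto_nhds_unique h6 h9
  have h17 : Ub c m t = (k - P (ept m t)).re - r * Real.log |t - t₀| := by
    unfold Ub
    rw [h16, Complex.sub_re (k - P (ept m t)), Complex.re_ofReal_mul, Complex.log_re, ept_sub,
      norm_mul, Complex.norm_I, one_mul, Complex.norm_real, Real.norm_eq_abs]
  rw [h17, hH₀, ept_eg]
  ring

end Pool.Agent.R385.FG
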