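import Pool.Agent.R385.FG.Res

/-!
# The converse
-/

set_option autoImplicit false

namespace Pool.Agent.R385.FG

open Complex Filter Topology MeasureTheory Metric
open Pool.Agent.R385.MC
open Pool.Agent.H126R3 (Qc Qc_pos summable_Q)

variable {c : Nat.Primes × ℕ → ℂ} {m : ℕ} {D : ℝ}

theorem res_of_sing (hD : 0 ≤ D) (hc : ∀ x, ‖c x‖ ≤ D * (Qc x : ℝ) ^ m) {t₀ r : ℝ}
    (h : LogSing (Ub c m) t₀ r) : HasRes m (Dc c) (ept m t₀) r := by
  obtain ⟨H, hH, hHl⟩ := h
  obtain ⟨b, Y, hbY⟩ := zeta_piece t₀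
  obtain ⟨hb, hY, hY0, hev⟩ := id hbY
  obtain ⟨y, hy, hye⟩ := exists_log hY hY0
  have hna := norm_an hD hc
  set a' : ℕ → ℂ := fun p => an c m p + ((-r : ℝ) : ℂ) * b p with ha'
  have ha'b : ∀ p, ‖a' p‖ ≤ D + |r| := by
    intro p
    refine (norm_add_le _ _).trans (add_le_add (hna p) ?_)
    rw [norm_mul, Complex.norm_real, norm_neg, Real.norm_eq_abs]
    calc |r| * ‖b p‖ ≤ |r| * 1 := by
          have := hb p
          gcongr
      _ = _ := mul_one _
  have hHT : AnalyticAt ℂ (HT c m) (t₀ : ℂ) := HT_analytic hD hc (by simp)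
  set Hh : ℂ → ℂ := fun ζ => H ζ - HT c m ζ - r * y ζ with hHh
  have hHha : AnalyticAt ℂ Hh t₀ := (hH.sub hHT).sub (analyticAt_const.mul hy)
  have hre : NearR t₀ fun τ => (bv a' τ).re = (Hh τ).re := by
    have hae := NearR.of_ae (τ₀ := t₀) (bv_add_mul hna hb ((-r : ℝ) : ℂ))
    have hHl' : NearR t₀ fun t => ((Ub c m t + r * Real.log |t - t₀| : ℝ) : ℂ) = H t := hHl
    refine (((hae.and hHl').and ((NearR.of_nhds hye).and (piece_bdry hbY))).and NearR.ne).mono ?_
    rintro τ ⟨⟨⟨h1, h2⟩, h3, h4⟩, h5⟩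
    have h0 : 0 < |τ - t₀| := abs_pos.2 (sub_ne_zero.2 h5)
    set u := Real.log |τ - t₀| with hu
    have hue : |τ - t₀| = Real.exp u := (Real.exp_log h0).symm
    have e3 : (bv b τ).re = (y τ).re - u := by
      rw [hue, h3, Complex.norm_exp, ← Real.exp_neg, ← Real.exp_add, Real.exp_eq_exp] at h4
      linarith
    have e4 : (H τ).re = (HT c m τ).re + (bv (an c m) τ).re + r * u := by
      rw [← h2, Complex.ofReal_re]
      unfold Ub
      rw [Complex.add_re]
    have e5 : (bv a' τ).re = (bv (an c m) τ).re + (-r) * (bv b τ).re := by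
      rw [ha', h1, Complex.add_re, Complex.re_ofReal_mul]
    rw [e5, hHh]
    simp only [Complex.sub_re, Complex.re_ofReal_mul]
    rw [e3, e4]
    ring
  obtain ⟨r₁, hr₁, hre'⟩ := hre
  obtain ⟨r₂, hr₂, hHd⟩ := Metric.eventually_nhds_iff_ball.1 hHha.eventually_analyticAt
  set ρ := min 1 (min r₁ r₂) with hρ
  have hρ0 : 0 < ρ := lt_min one_pos (lt_min hr₁ hr₂)
  have hbr : ∀ᵐ τ : ℝ, (τ : ℂ) ∈ ball (t₀ : ℂ) ρ → (bv a' τ).re = (Hh τ).re := by
    filter_upwards [hre'] with τ h1 h2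
    refine h1 ?_
    rw [mem_ball, dist_eq_norm, ← Complex.ofReal_sub, Complex.norm_real, Real.norm_eq_abs] at h2
    exact h2.trans_le ((min_le_right _ _).trans (min_le_left _ _))
  obtain ⟨G, hG, hGe⟩ := local_ext (a := a') (D := D + |r|)
    (add_nonneg hD (abs_nonneg _)) ha'b (c := t₀) (r := ρ) hρ0 (min_le_left _ _) (H := Hh)
    (fun z hz => (hHd z (ball_subset_ball ((min_le_right _ _).trans (min_le_right _ _)) hz)
      ).differentiableAt.differentiableWithinAt) hbr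
  have hGa : AnalyticAt ℂ G t₀ := hG.analyticAt (ball_mem_nhds _ hρ0)
  -- the derivative of the comparison function
  have hdb : ∀ᶠ ζ : ℂ in 𝓝 (t₀ : ℂ), ζ.im < 0 →
      HasDerivAt (gg b) (deriv Y ζ / Y ζ - (ζ - t₀)⁻¹) ζ := by
    filter_upwards [hev.eventually_nhds, hY.eventually_analyticAt,
      hY.continuousAt.eventually_ne hY0] with ζ h1 h2 h3 him
    have hne : ζ - (t₀ : ℂ) ≠ 0 := by
      intro h4
      have h5 : ζ = t₀ := sub_eq_zero.1 h4
      rw [h5] at him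
      simp at him
    have hgd : HasDerivAt (gg b) (deriv (gg b) ζ) ζ :=
      ((gg_diff zero_le_one hb).differentiableAt
        ((isOpen_lt Complex.continuous_im continuous_const).mem_nhds him)).hasDerivAt
    have h4 : HasDerivAt (fun z => Complex.exp (gg b z)) (Complex.exp (gg b ζ) * deriv (gg b) ζ) ζ :=
      hgd.cexp
    have h5 : HasDerivAt (fun z : ℂ => Y z * (z - t₀)⁻¹)
        (deriv Y ζ * (ζ - t₀)⁻¹ + Y ζ * (-1 / (ζ - t₀) ^ 2)) ζ :=
      h2.differentiableAt.hasDerivAt.mul (((hasDerivAt_id ζ).sub_const _).inv hne)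
    have h6 : (fun z => Complex.exp (gg b z)) =ᶠ[𝓝 ζ] fun z : ℂ => Y z * (z - t₀)⁻¹ := by
      have h7 : ∀ᶠ z : ℂ in 𝓝 ζ, z.im < 0 :=
        (isOpen_lt Complex.continuous_im continuous_const).mem_nhds him
      filter_upwards [h1, h7] with z h8 h9 using h8 h9
    have h7 := (h6.hasDerivAt_iff.1 h4).unique h5
    have h8 : Complex.exp (gg b ζ) = Y ζ * (ζ - t₀)⁻¹ := h6.eq_of_nhds
    have h9 : deriv (gg b) ζ = deriv Y ζ / Y ζ - (ζ - t₀)⁻¹ := by
      rw [h8] at h7
      have h10 : Y ζ * (ζ - t₀)⁻¹ ≠ 0 := mul_ne_zero h3 (inv_ne_zero hne)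
      apply mul_left_cancel₀ h10
      rw [h7]
      field_simp
      ring
    rw [← h9]
    exact hgd
  -- the extension
  set E : ℂ → ℂ := fun ζ => I * (deriv (HT c m) ζ + deriv G ζ + r * (deriv Y ζ / Y ζ)) with hE
  have hEa : AnalyticAt ℂ E t₀ := by
    refine analyticAt_const.mul ((hHT.deriv.add hGa.deriv).add (analyticAt_const.mul ?_))
    exact hY.deriv.div hY hY0
  refine ⟨fun s => E (ge (2 * m : ℤ) s), ?_, ?_⟩
  · have h1 : AnalyticAt ℂ E (ge (2 * m : ℤ) (ept m t₀)) := by rwa [ge_ept]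
    exact h1.comp (ge_analytic _ _)
  · have h1 : Tendsto (ge (2 * m : ℤ)) (𝓝 (ept m t₀)) (𝓝 (t₀ : ℂ)) := by
      have := (ge_analytic (2 * m : ℤ) (ept m t₀)).continuousAt.tendsto
      rwa [ge_ept] at this
    have hball : ∀ᶠ ζ : ℂ in 𝓝 (t₀ : ℂ), ζ ∈ ball (t₀ : ℂ) ρ := ball_mem_nhds _ hρ0
    filter_upwards [h1.eventually hdb, h1.eventually hball] with s h2 h3 hre
    set ζ : ℂ := ge (2 * m : ℤ) s with hζ
    have him : ζ.im < 0 := (ge_im' m s).2 hre
    have hs : eg (2 * m : ℤ) ζ = s := eg_ge _ _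
    have h4 := h2 him
    -- the derivative of `lc ∘ eg` in two ways
    have h5 : HasDerivAt (fun z => lc c (eg (2 * m : ℤ) z)) (-(Dc c s) * I) ζ := by
      have h6 : HasDerivAt (eg (2 * m : ℤ)) (I * 1) ζ := by
        unfold eg
        exact ((hasDerivAt_id ζ).const_mul _).const_add _
      have h7 : HasDerivAt (lc c) (-(Dc c s)) (eg (2 * m : ℤ) ζ) := by
        rw [hs]
        exact hasDeriv_lc hc hre
      have h8 := h7.comp ζ h6
      rw [mul_one] at h8
      exact h8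
    have hGd : HasDerivAt G (deriv G ζ) ζ :=
      (hG.differentiableAt (isOpen_ball.mem_nhds h3)).hasDerivAt
    have hHTd : HasDerivAt (HT c m) (deriv (HT c m) ζ) ζ :=
      (HT_analytic hD hc him.le).differentiableAt.hasDerivAt
    have h6 : HasDerivAt (fun z => HT c m z + (G z + r * gg b z))
        (deriv (HT c m) ζ + (deriv G ζ + r * (deriv Y ζ / Y ζ - (ζ - t₀)⁻¹))) ζ :=
      hHTd.add (hGd.add (h4.const_mul _))
    have h7 : (fun z => lc c (eg (2 * m : ℤ) z)) =ᶠ[𝓝 ζ] fun z => HT c m z + (G z + r * gg b z) := by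
      have h8 : ∀ᶠ z : ℂ in 𝓝 ζ, z.im < 0 :=
        (isOpen_lt Complex.continuous_im continuous_const).mem_nhds him
      filter_upwards [h8, isOpen_ball.mem_nhds h3] with z h9 h10
      rw [lc_split hD hc h9, hGe z h10 h9, ha', gg_add_mul hD hna hb _ h9]
      push_cast
      ring
    have h8 := (h7.hasDerivAt_iff.1 h5).unique h6
    have hne : ζ - (t₀ : ℂ) ≠ 0 := by
      intro h4
      have h5 : ζ = t₀ := sub_eq_zero.1 h4
      rw [h5] at him
      simp at him
    have h9 : s - ept m t₀ = I * (ζ - t₀) := by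
      rw [← hs, eg_sub]
    rw [h9]
    show Dc c s = _ + E ζ
    rw [hE]
    simp only
    have h10 : Dc c s = I * (-(Dc c s) * I) := by
      linear_combination (Dc c s) * Complex.I_mul_I
    rw [h10, h8]
    have hI : (I : ℂ) ≠ 0 := Complex.I_ne_zero
    field_simp
    rw [Complex.I_sq]
    ring

/-- **The residue and the boundary function.** -/
theorem res_iff (hD : 0 ≤ D) (hc : ∀ x, ‖c x‖ ≤ D * (Qc x : ℝ) ^ m) (t₀ r : ℝ) :
    HasRes m (Dc c) (ept m t₀) r ↔ LogSing (Ub c m) t₀ r :=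
  ⟨sing_of_res hD hc, res_of_sing hD hc⟩

end Pool.Agent.R385.FG
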