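import Pool.Agent.R385.FG.Main

/-!
# The modulus as a limit of finite sums over closed points
-/

set_option autoImplicit false

namespace Pool.Agent.R385.FG

open Complex Filter Topology MeasureTheory NumberField IsDedekindDomain
open Pool.Agent.R385.MC (gg bv bv_ae ps_eq eg eg_real)
open Pool.Agent.H126R3 (Qc Qc_pos)
open Pool.Agent.W385.CP
open Pool.Agent.W353.FB (Fibration)

lemma le_Qc (c : Nat.Primes × ℕ) : (c.1 : ℕ) ≤ Qc c := by
  unfold Qc
  exact Nat.le_self_pow (by omega) _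

lemma snd_lt_Qc (c : Nat.Primes × ℕ) : c.2 < Qc c := by
  unfold Qc
  calc c.2 < 2 ^ (c.2 + 1) := by
        have := Nat.lt_two_pow_self (n := c.2 + 1)
        omega
    _ ≤ (c.1 : ℕ) ^ (c.2 + 1) := Nat.pow_le_pow_left c.1.2.two_le _

lemma toFin {α : Type} {s : Set α} (h : Finite s) : s.Finite :=
  Set.toFinite s

lemma finite_Qc (x : ℕ) : {c : Nat.Primes × ℕ | Qc c < x}.Finite := by
  have h1 : ((Set.Iio x) ×ˢ (Set.Iio x) : Set (ℕ × ℕ)).Finite :=
    (Set.finite_Iio x).prod (Set.finite_Iio x)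
  have hinj : Function.Injective fun c : Nat.Primes × ℕ => (((c.1 : ℕ), c.2) : ℕ × ℕ) := by
    intro c d h
    have h2 := Prod.mk.inj h
    exact Prod.ext (Subtype.ext h2.1) h2.2
  refine (h1.preimage hinj.injOn).subset fun c hc => ?_
  have hc' : Qc c < x := hc
  exact ⟨(le_Qc c).trans_lt hc', (snd_lt_Qc c).trans hc'⟩

section
variable {B : Type} [CommRing B] [FinRes B] (n C0 : ℕ) [hB : HomBd B n C0]
  (tr : MaximalSpectrum B → ℕ → ℂ)

include hB in
lemma finite_kp (x : ℕ) : {z : MaximalSpectrum B × ℕ | Qc (kp z) < x}.Finite := by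
  have h1 : {z : MaximalSpectrum B × ℕ | Qc (kp z) < x} =
      ⋃ c ∈ {c : Nat.Primes × ℕ | Qc c < x}, {z | kp z = c} := by
    ext z
    simp
  rw [h1]
  refine (finite_Qc x).biUnion fun c _ => ?_
  exact toFin (finPh (B := B) n C0 c)

include hB in
lemma sum_lt (s : ℂ) (x : ℕ) :
    ∑' z : MaximalSpectrum B × ℕ, (if Qc (kp z) < x then tm tr s z else 0) =
      ∑' c, (if Qc c < x then Ac tr c * ((Qc c : ℕ) : ℂ) ^ (-s) else 0) := by
  have h1 : Summable (fun z : MaximalSpectrum B × ℕ => if Qc (kp z) < x then tm tr s z else 0) := by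
    refine summable_of_hasFiniteSupport ((finite_kp (B := B) n C0 x).subset fun z hz => ?_)
    by_contra h
    exact hz (if_neg h)
  have h2 := h1.hasSum
  rw [← (Equiv.sigmaFiberEquiv (kp (B := B))).hasSum_iff] at h2
  have h3 := h2.sigma (g := fun c => if Qc c < x then Ac tr c * ((Qc c : ℕ) : ℂ) ^ (-s) else 0)
    (fun c => ?_)
  · exact h3.tsum_eq.symm
  · have := finPh (B := B) n C0 c
    let _ := Fintype.ofFinite {z : MaximalSpectrum B × ℕ // kp z = c}
    have h4 : (if Qc c < x then Ac tr c * ((Qc c : ℕ) : ℂ) ^ (-s) else 0) =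
        ∑ z : {z : MaximalSpectrum B × ℕ // kp z = c},
          (if Qc (kp z.1) < x then tm tr s z.1 else 0) := by
      by_cases h : Qc c < x
      · rw [if_pos h]
        unfold Ac
        rw [finsum_eq_sum_of_fintype, Finset.sum_mul]
        refine Finset.sum_congr rfl fun z _ => ?_
        rw [if_pos (by rw [z.2]; exact h), tm_eq, z.2]
      · rw [if_neg h, Finset.sum_eq_zero]
        intro z _
        rw [if_neg (by rw [z.2]; exact h)]
    show HasSum _ (if Qc c < x then Ac tr c * ((Qc c : ℕ) : ℂ) ^ (-s) else 0)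
    rw [h4]
    exact hasSum_fintype _

end

section
variable {c : Nat.Primes × ℕ → ℂ} {m : ℕ} {D : ℝ}

lemma sum_first_lt (τ : ℝ) (x : ℕ) :
    (∑' y : Nat.Primes × ℕ, if Qc y < x then
      (if y.2 = 0 then c y * ((Qc y : ℕ) : ℂ) ^ (-(eg (2 * m : ℤ) τ)) else 0) else 0) =
      Pool.Agent.W350.Edge.ps (an c m) τ x := by
  have hinj : Function.Injective fun p : Nat.Primes => ((p, 0) : Nat.Primes × ℕ) := by
    intro p q h
    exact (Prod.mk.inj h).1
  have h1 := hinj.tsum_eq (f := fun y : Nat.Primes × ℕ => if Qc y < x then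
      (if y.2 = 0 then c y * ((Qc y : ℕ) : ℂ) ^ (-(eg (2 * m : ℤ) τ)) else 0) else 0) (by
      intro y hy
      by_contra hcon
      apply hy
      have h2 : y.2 ≠ 0 := by
        intro h3
        apply hcon
        exact ⟨y.1, Prod.ext rfl h3.symm⟩
      simp only [h2, if_false, ite_self])
  rw [← h1]
  have hinj2 : Function.Injective fun p : Nat.Primes => (p : ℕ) := fun p q h => Subtype.ext h
  have h3 := hinj2.tsum_eq (f := fun n : ℕ => if n < x then
      Pool.Agent.R385.MC.cf (an c m) n * Complex.exp (-(I * τ) * Real.log n) else 0) (by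
      intro n hn
      by_contra hcon
      apply hn
      have h2 : ¬ n.Prime := by
        intro h3
        apply hcon
        exact ⟨⟨n, h3⟩, rfl⟩
      unfold Pool.Agent.R385.MC.cf
      simp only [h2, if_false, zero_mul, ite_self])
  have h4 : ∀ p : Nat.Primes, (if Qc (p, 0) < x then
      (if ((p, 0) : Nat.Primes × ℕ).2 = 0 then
        c (p, 0) * ((Qc (p, 0) : ℕ) : ℂ) ^ (-(eg (2 * m : ℤ) τ)) else 0) else 0) =
      if (p : ℕ) < x then
        Pool.Agent.R385.MC.cf (an c m) p * Complex.exp (-(I * τ) * Real.log (p : ℕ)) else 0 := by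
    intro p
    have hQ : Qc ((p, 0) : Nat.Primes × ℕ) = p := by
      unfold Qc
      simp
    rw [← first_eq p (τ : ℂ), hQ]
    simp
  rw [tsum_congr h4, h3, tsum_eq_sum (s := Finset.range x) (fun n hn => if_neg (by
    rwa [Finset.mem_range] at hn)), ps_eq]
  refine Finset.sum_congr rfl fun n hn => ?_
  rw [if_pos (Finset.mem_range.1 hn)]

theorem tend_sum (hD : 0 ≤ D) (hc : ∀ x, ‖c x‖ ≤ D * (Qc x : ℝ) ^ m) :
    ∀ᵐ τ : ℝ, Tendsto (fun x : ℕ => ∑' y, if Qc y < x then
      c y * ((Qc y : ℕ) : ℂ) ^ (-(eg (2 * m : ℤ) τ)) else 0) atTop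
      (𝓝 (HT c m τ + bv (an c m) τ)) := by
  filter_upwards [bv_ae (norm_an hD hc)] with τ hτ
  have him : ((τ : ℂ)).im ≤ 1 / 4 := by simp
  have h1 : Tendsto (fun x : ℕ => ∑' y, if Qc y < x then ht c m y τ else 0) atTop
      (𝓝 (HT c m τ)) := by
    refine tendsto_tsum_of_dominated_convergence (summable_dom1 D) (fun y => ?_)
      (Eventually.of_forall fun x y => ?_)
    · refine tendsto_const_nhds.congr' ?_
      filter_upwards [eventually_gt_atTop (Qc y)] with x hx
      rw [if_pos hx]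
    · have h5 := norm_ht hD hc y him
      by_cases h : Qc y < x
      · rw [if_pos h]
        exact h5
      · rw [if_neg h, norm_zero]
        exact (norm_nonneg _).trans h5
  refine (h1.add hτ).congr fun x => ?_
  rw [← sum_first_lt (c := c) (m := m) τ x, ← Summable.tsum_add]
  · refine tsum_congr fun y => ?_
    unfold ht
    by_cases hx : Qc y < x
    · by_cases h0 : y.2 = 0
      · simp [h0, hx]
      · have : 1 ≤ y.2 := by omega
        simp [h0, hx, this]
    · simp [hx]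
  · refine summable_of_hasFiniteSupport ((finite_Qc x).subset fun z hz => ?_)
    by_contra h
    exact hz (if_neg h)
  · refine summable_of_hasFiniteSupport ((finite_Qc x).subset fun z hz => ?_)
    by_contra h
    exact hz (if_neg h)

end

open Pool.Agent.Y707.PH (IsLisse IsPhi HasOrder IsLocal Pts Ys isPhi isLocal_eg isLocal_unique
  norm_cf bC bC_nonneg)

section
variable {K : Type} [Field K] [NumberField K] {f : Fibration K}
  {R : Finset (HeightOneSpectrum (𝓞 K))} {F : Type} [Field F] [NumberField F] [Algebra K F]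

/-- The number `q_y` of the elements of the residue field of the closed point `y`. -/
noncomputable def card (y : Pts f R F) : ℕ :=
  Nat.card (MvPolynomial (Fin f.l) (𝓞 F) ⧸ y.1.asIdeal)

/-- The terms of the logarithm of the Euler product `∏_y ∏_{α ∈ β y} (1 - α q_y^{-s})⁻¹` with
`q_y^e < x`: the finite sum of `e⁻¹ (∑_{α ∈ β y} α^e) q_y^{-es}` over the closed points `y` and the
integers `e ≥ 1` with `q_y^e < x`. -/
noncomputable def logSum (β : Pts f R F → Multiset ℂ) (x : ℕ) (s : ℂ) : ℂ :=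
  ∑ᶠ z ∈ {z : Pts f R F × ℕ | card z.1 ^ (z.2 + 1) < x},
    ((β z.1).map fun α => α ^ (z.2 + 1)).sum * ((card z.1 : ℕ) : ℂ) ^ (-((z.2 + 1 : ℂ) * s)) /
      (z.2 + 1 : ℂ)

variable {C : ℝ}

theorem logSum_eq (hf : IsLisse f R C) {β : Pts f R F → Multiset ℂ} (hβ : IsLocal f R F β) (x : ℕ)
    (s : ℂ) : logSum β x s = ∑' c, (if Qc c < x then
      Pool.Agent.Y707.PH.cf f R F c * ((Qc c : ℕ) : ℂ) ^ (-s) else 0) := by
  classical
  obtain rfl := isLocal_unique hβ (isLocal_eg hf)
  have h0 := sum_lt (B := MvPolynomial (Fin f.l) (𝓞 F)) (Fintype.card (Fin f.l))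
    (Module.finrank ℤ (𝓞 F)) (Pool.Agent.Y707.PH.tr f R F) s x
  have h0' : ∑' c, (if Qc c < x then
      Pool.Agent.Y707.PH.cf f R F c * ((Qc c : ℕ) : ℂ) ^ (-s) else 0) =
      ∑' c, (if Qc c < x then Ac (Pool.Agent.Y707.PH.tr f R F) c * ((Qc c : ℕ) : ℂ) ^ (-s) else 0) :=
    rfl
  rw [h0', ← h0]
  have hinj : Function.Injective fun z : Pts f R F × ℕ =>
      ((z.1.1, z.2) : MaximalSpectrum (MvPolynomial (Fin f.l) (𝓞 F)) × ℕ) := by
    intro z w h
    have h2 := Prod.mk.inj h
    exact Prod.ext (Subtype.ext h2.1) h2.2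
  have h1 := hinj.tsum_eq (f := fun z : MaximalSpectrum (MvPolynomial (Fin f.l) (𝓞 F)) × ℕ =>
    if Qc (kp z) < x then tm (Pool.Agent.Y707.PH.tr f R F) s z else 0) (by
      intro z hz
      by_contra hcon
      apply hz
      have h2 : z.1 ∉ Ys f R F := by
        intro h3
        exact hcon ⟨(⟨z.1, h3⟩, z.2), rfl⟩
      have h3 : tm (Pool.Agent.Y707.PH.tr f R F) s z = 0 := by
        unfold tm Pool.Agent.Y707.PH.tr
        rw [if_neg h2, zero_mul, zero_div]
      simp only [h3, ite_self])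
  rw [← h1]
  unfold logSum
  rw [finsum_mem_def, ← tsum_eq_finsum (L := SummationFilter.unconditional _)]
  · refine tsum_congr fun z => ?_
    have hq : Qc (kp (z.1.1, z.2)) = card z.1 ^ (z.2 + 1) := Qc_kp _
    have hy : z.1.1 ∈ Ys f R F := z.1.2
    rw [hq]
    by_cases hx : card z.1 ^ (z.2 + 1) < x
    · rw [if_pos hx, Set.indicator_of_mem (by exact hx)]
      unfold tm Pool.Agent.Y707.PH.tr
      rw [if_pos hy]
      rfl
    · rw [if_neg hx, Set.indicator_of_notMem (by exact hx)]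
  · have h2 := finite_kp (B := MvPolynomial (Fin f.l) (𝓞 F)) (Fintype.card (Fin f.l))
      (Module.finrank ℤ (𝓞 F)) x
    refine (h2.preimage hinj.injOn).subset fun z hz => ?_
    by_contra hcon
    apply hz
    refine Set.indicator_of_notMem ?_ _
    intro h3
    apply hcon
    have hq : Qc (kp (z.1.1, z.2)) = card z.1 ^ (z.2 + 1) := Qc_kp _
    show Qc (kp (z.1.1, z.2)) < x
    rw [hq]
    exact h3

/-- **The modulus is the limit of the finite sums over the closed points.** -/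
theorem modulus_tendsto (hf : IsLisse f R C) {Φ : ℂ → ℂ} (hΦ : IsPhi f R F Φ)
    {β : Pts f R F → Multiset ℂ} (hβ : IsLocal f R F β) :
    ∀ᵐ t : ℝ, Tendsto (fun x : ℕ => Real.exp (logSum β x (ept f.m t)).re) atTop
      (𝓝 (radial f.m Φ t)) := by
  have hD : 0 ≤ bC F C := bC_nonneg
  have hc := norm_cf (F := F) hf
  filter_upwards [tend_sum hD hc, radial_ae hD hc (phi_eq hf hΦ)] with t h1 h2
  rw [h2.1]
  have h3 : Real.exp (HT (Pool.Agent.Y707.PH.cf f R F) f.m t +
      bv (an (Pool.Agent.Y707.PH.cf f R F) f.m) t).re = lam (Pool.Agent.Y707.PH.cf f R F) f.m t := by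
    unfold lam
    rw [Complex.norm_exp, ← Real.exp_add, Complex.add_re]
  rw [← h3]
  refine (Real.continuous_exp.tendsto _).comp ((Complex.continuous_re.tendsto _).comp
    (h1.congr fun x => ?_))
  rw [logSum_eq hf hβ, ept_eg]

/-- The modulus of `Φ₁` on the line `Re s = dim 𝒴`: the limit, for `x → ∞`, of the exponential of the
real part of the sum `logSum` at `dim 𝒴 + it = m + 1 + it`. -/
noncomputable def modulus (β : Pts f R F → Multiset ℂ) (t : ℝ) : ℝ :=
  limUnder atTop fun x : ℕ => Real.exp (logSum β x (ept f.m t)).re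

theorem modulus_ae (hf : IsLisse f R C) {Φ : ℂ → ℂ} (hΦ : IsPhi f R F Φ)
    {β : Pts f R F → Multiset ℂ} (hβ : IsLocal f R F β) :
    ∀ᵐ t : ℝ, modulus β t = radial f.m Φ t ∧
      Tendsto (fun x : ℕ => Real.exp (logSum β x (ept f.m t)).re) atTop (𝓝 (modulus β t)) := by
  filter_upwards [modulus_tendsto hf hΦ hβ] with t h1
  have h2 : modulus β t = radial f.m Φ t := h1.limUnder_eq
  exact ⟨h2, by rw [h2]; exact h1⟩

/-- **The criterion.** -/
theorem main (hf : IsLisse f R C) {Φ : ℂ → ℂ} (hΦ : IsPhi f R F Φ)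
    {β : Pts f R F → Multiset ℂ} (hβ : IsLocal f R F β) :
    (∀ᵐ t : ℝ, 0 < modulus β t ∧
      Tendsto (fun x : ℕ => Real.exp (logSum β x (ept f.m t)).re) atTop (𝓝 (modulus β t)) ∧
      Tendsto (fun ε : ℝ => ‖Φ (ept f.m t + ε)‖) (𝓝[>] 0) (𝓝 (modulus β t))) ∧
    (∀ U : Set ℂ, Symm f.m U →
      (MerOn f.m Φ U ↔ SqMerOn f.m (modulus β) U) ∧
      (HolOn f.m Φ U ↔ SqHolOn f.m (modulus β) U)) ∧
    (∀ (t₀ : ℝ) (r : ℤ), OrdAt f.m Φ t₀ r ↔ SqOrdAt f.m (modulus β) t₀ (2 * r)) ∧
    ∀ r : ℤ, HasOrder f R F r ↔ SqOrdAt f.m (modulus β) 0 (2 * r) := by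
  have hD : 0 ≤ bC F C := bC_nonneg
  have hc := norm_cf (F := F) hf
  have hΦ' := phi_eq hf hΦ
  have hm := modulus_ae hf hΦ hβ
  have hd := dec_congr (dec_radial hD hc hΦ') (fun ζ _ => rfl) (lm' := modulus β) (by
    filter_upwards [hm] with t h1 using h1.1)
  refine ⟨?_, fun U hU => ⟨crit_mer hd hU, crit_hol hd (fun ζ hζ => ⟨?_, Complex.exp_ne_zero _⟩) hU⟩,
    fun t₀ r => crit_loc hd t₀ r, fun r => ?_⟩
  · filter_upwards [radial_ae hD hc hΦ', hm] with t h1 h2
    refine ⟨?_, h2.2, ?_⟩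
    · rw [h2.1, h1.1]
      exact lam_pos t
    · rw [h2.1]
      exact h1.2
  · exact (HT_analytic hD hc hζ.le).cexp
  · rw [hasOrder_iff hf hΦ]
    exact crit_loc hd 0 r

end

end Pool.Agent.R385.FG
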